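import Mathlib
import Pool.Agent.Lib_helper96.PhaseRetrieval

/-!
# Phase retrieval by hyperplanes in even dimension

For even `M = n + 1 ≥ 4` there are `2M - 2` hyperplanes of `ℝ^M` allowing phase retrieval, and fewer
never suffice.

The normal vectors are `φ(t) = (√A_i t^i)_{0 ≤ i ≤ n}` for `2n` values of `t` close to `0`, with
weights `A_0 = A_{n-1} = 1` and `A_n ≪ A_1 ≪ A_2 ≪ ... ≪ A_{n-2} ≪ 1`. A pair violating phase
retrieval gives two nonzero polynomials `X, Y` of degree `≤ n` such that `X Y - ρ E` vanishes at the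
`2n` points, `E = ∑ A_i t^{2i}`, `ρ = ∑ X_i Y_i / A_i`; in the limit, `X Y = ρ E + λ t^{2n}` (`jet`).
-/

open Polynomial Finset Filter

namespace Pool.Agent.Lib_helper24.Hyperplanes

/-- an odd degree real polynomial has a real root -/
lemma odd_root (p : ℝ[X]) (hp : Odd p.natDegree) : ∃ t, p.eval t = 0 := by
  -- wlog leading coefficient positive
  have main : ∀ q : ℝ[X], Odd q.natDegree → 0 < q.leadingCoeff → ∃ t, q.eval t = 0 := by
    intro q hq hl
    have hd : 0 < q.natDegree := by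
      rcases hq with ⟨k, hk⟩
      omega
    have h1 : Tendsto (fun x => q.eval x) atTop atTop :=
      q.tendsto_atTop_of_leadingCoeff_nonneg (natDegree_pos_iff_degree_pos.mp hd) hl.le
    set r : ℝ[X] := -(q.comp (-X)) with hr
    have hrd : r.natDegree = q.natDegree := by
      rw [hr, natDegree_neg, natDegree_comp, natDegree_neg, natDegree_X, mul_one]
    have hrl : 0 < r.leadingCoeff := by
      rw [hr, leadingCoeff_neg, leadingCoeff_comp (by simp)]
      rw [leadingCoeff_neg, leadingCoeff_X, hq.neg_one_pow]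
      linarith
    have h2 : Tendsto (fun x => r.eval x) atTop atTop :=
      r.tendsto_atTop_of_leadingCoeff_nonneg
        (natDegree_pos_iff_degree_pos.mp (by omega)) hrl.le
    obtain ⟨u, hu⟩ := (h1.eventually_ge_atTop 1).exists
    obtain ⟨v, hv⟩ := (h2.eventually_ge_atTop 1).exists
    have hv' : q.eval (-v) ≤ -1 := by
      have : r.eval v = -(q.eval (-v)) := by simp [hr]
      rw [this] at hv
      linarith
    have hc : Continuous fun x => q.eval x := q.continuous
    have := mem_range_of_exists_le_of_exists_ge hc ⟨-v, by linarith⟩ ⟨u, by linarith⟩ (c := (0:ℝ))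
    obtain ⟨t, ht⟩ := this
    exact ⟨t, ht⟩
  have h0 : p.leadingCoeff ≠ 0 := by
    intro h
    rw [leadingCoeff_eq_zero] at h
    rw [h, natDegree_zero] at hp
    exact absurd hp (by decide)
  rcases lt_or_gt_of_ne h0 with h | h
  · obtain ⟨t, ht⟩ := main (-p) (by rwa [natDegree_neg]) (by rw [leadingCoeff_neg]; linarith)
    exact ⟨t, by simpa using ht⟩
  · exact main p hp h

/-- polynomial with coefficient vector `a` -/
noncomputable def pl {n : ℕ} (a : Fin (n+1) → ℝ) : ℝ[X] := ∑ j : Fin (n+1), C (a j) * X ^ (j : ℕ)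

lemma pl_coeff {n : ℕ} (a : Fin (n+1) → ℝ) (k : ℕ) :
    (pl a).coeff k = if h : k < n + 1 then a ⟨k, h⟩ else 0 := by
  unfold pl
  rw [finsetSum_coeff]
  simp only [coeff_C_mul_X_pow]
  split_ifs with h
  · rw [Finset.sum_eq_single (⟨k, h⟩ : Fin (n+1))]
    · simp
    · intro b _ hb
      rw [if_neg]
      intro h'
      exact hb (Fin.ext h'.symm)
    · simp
  · apply Finset.sum_eq_zero
    intro j _
    rw [if_neg]
    intro h'
    exact h (h' ▸ j.isLt)

lemma pl_coeff_fin {n : ℕ} (a : Fin (n+1) → ℝ) (j : Fin (n+1)) :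
    (pl a).coeff (j : ℕ) = a j := by
  rw [pl_coeff, dif_pos j.isLt]

lemma pl_natDegree {n : ℕ} (a : Fin (n+1) → ℝ) : (pl a).natDegree ≤ n := by
  apply natDegree_sum_le_of_forall_le
  intro j _
  exact (natDegree_C_mul_X_pow_le _ _).trans (by omega)

lemma pl_eq_zero {n : ℕ} (a : Fin (n+1) → ℝ) (h : pl a = 0) : a = 0 := by
  funext j
  have := pl_coeff_fin a j
  rw [h, coeff_zero] at this
  exact this.symm

lemma pl_smul {n : ℕ} (s : ℝ) (a : Fin (n+1) → ℝ) : pl (s • a) = s • pl a := by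
  ext k
  rw [coeff_smul, pl_coeff, pl_coeff]
  split_ifs <;> simp

lemma exists_pl {n : ℕ} (p : ℝ[X]) (hp : p.natDegree ≤ n) : ∃ a : Fin (n+1) → ℝ, pl a = p := by
  refine ⟨fun j => p.coeff j, ?_⟩
  ext k
  rw [pl_coeff]
  split_ifs with h
  · rfl
  · rw [coeff_eq_zero_of_natDegree_lt (by omega)]

lemma pl_coeff_cont {n : ℕ} (k : ℕ) : Continuous fun a : Fin (n+1) → ℝ => (pl a).coeff k := by
  by_cases h : k < n + 1
  · have : (fun a : Fin (n+1) → ℝ => (pl a).coeff k) = fun a => a ⟨k, h⟩ := by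
      funext a
      rw [pl_coeff, dif_pos h]
    rw [this]
    exact continuous_apply _
  · have : (fun a : Fin (n+1) → ℝ => (pl a).coeff k) = fun a => 0 := by
      funext a
      rw [pl_coeff, dif_neg h]
    rw [this]
    exact continuous_const

/-- compactness: a nonsingular bihomogeneous map is bounded below -/
lemma nonsing_bound (n K : ℕ) (Φ : (Fin (n+1) → ℝ) → (Fin (n+1) → ℝ) → ℝ[X])
    (hc : ∀ k, Continuous fun z : (Fin (n+1) → ℝ) × (Fin (n+1) → ℝ) => (Φ z.1 z.2).coeff k)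
    (hs : ∀ (s t : ℝ) a b, Φ (s • a) (t • b) = (s * t) • Φ a b)
    (h : ∀ a b, (∀ k < K, (Φ a b).coeff k = 0) → a = 0 ∨ b = 0) :
    ∃ m > 0, ∀ a b, m * (‖a‖ * ‖b‖) ≤ ∑ k ∈ range K, |(Φ a b).coeff k| := by
  set S : Set ((Fin (n+1) → ℝ) × (Fin (n+1) → ℝ)) :=
    Metric.sphere 0 1 ×ˢ Metric.sphere 0 1 with hS
  have hSc : IsCompact S := (isCompact_sphere _ _).prod (isCompact_sphere _ _)
  have hSn : S.Nonempty := by
    have h1 : (Metric.sphere (0 : Fin (n+1) → ℝ) 1).Nonempty := by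
      apply NormedSpace.sphere_nonempty.mpr
      norm_num
    exact h1.prod h1
  have hg : Continuous fun z : (Fin (n+1) → ℝ) × (Fin (n+1) → ℝ) =>
      ∑ k ∈ range K, |(Φ z.1 z.2).coeff k| :=
    continuous_finsetSum _ fun k _ => (hc k).abs
  obtain ⟨z, hz, hmin⟩ := hSc.exists_isMinOn hSn hg.continuousOn
  have hpos : 0 < ∑ k ∈ range K, |(Φ z.1 z.2).coeff k| := by
    by_contra hcon
    have h0 : ∑ k ∈ range K, |(Φ z.1 z.2).coeff k| = 0 :=
      le_antisymm (not_lt.mp hcon) (Finset.sum_nonneg fun k _ => abs_nonneg _)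
    rw [Finset.sum_eq_zero_iff_of_nonneg (fun k _ => abs_nonneg _)] at h0
    have h1 := h z.1 z.2 fun k hk => abs_eq_zero.mp (h0 k (mem_range.mpr hk))
    have hz1 : ‖z.1‖ = 1 := by simpa using hz.1
    have hz2 : ‖z.2‖ = 1 := by simpa using hz.2
    rcases h1 with h1 | h1
    · rw [h1, norm_zero] at hz1; norm_num at hz1
    · rw [h1, norm_zero] at hz2; norm_num at hz2
  refine ⟨_, hpos, fun a b => ?_⟩
  by_cases ha : a = 0
  · rw [ha, norm_zero, zero_mul, mul_zero]
    exact Finset.sum_nonneg fun k _ => abs_nonneg _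
  by_cases hb : b = 0
  · rw [hb, norm_zero, mul_zero, mul_zero]
    exact Finset.sum_nonneg fun k _ => abs_nonneg _
  have ha' : 0 < ‖a‖ := norm_pos_iff.mpr ha
  have hb' : 0 < ‖b‖ := norm_pos_iff.mpr hb
  have hmem : ((‖a‖⁻¹ • a, ‖b‖⁻¹ • b) : (Fin (n+1) → ℝ) × (Fin (n+1) → ℝ)) ∈ S := by
    rw [hS]
    constructor
    · simp only [mem_sphere_iff_norm, sub_zero, norm_smul, norm_inv, norm_norm]
      exact inv_mul_cancel₀ ha'.ne'
    · simp only [mem_sphere_iff_norm, sub_zero, norm_smul, norm_inv, norm_norm]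
      exact inv_mul_cancel₀ hb'.ne'
  have h2 := isMinOn_iff.mp hmin _ hmem
  simp only [hs, coeff_smul, smul_eq_mul, abs_mul, abs_inv, abs_norm, ← Finset.mul_sum] at h2
  have h3 : ‖a‖⁻¹ * ‖b‖⁻¹ = (‖a‖ * ‖b‖)⁻¹ := by rw [mul_inv]
  rw [h3, ← div_eq_inv_mul] at h2
  exact (le_div_iff₀ (by positivity)).mp h2

/-- multiplicativity of the height of polynomials up to constants -/
lemma mul_bound (n : ℕ) : ∃ m > 0, ∀ a b : Fin (n+1) → ℝ,
    m * (‖a‖ * ‖b‖) ≤ ∑ k ∈ range (2 * n + 1), |(pl a * pl b).coeff k| := by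
  apply nonsing_bound n (2 * n + 1) (fun a b => pl a * pl b)
  · intro k
    simp only [coeff_mul]
    apply continuous_finsetSum
    intro x _
    exact ((pl_coeff_cont x.1).comp continuous_fst).mul ((pl_coeff_cont x.2).comp continuous_snd)
  · intro s t a b
    rw [pl_smul, pl_smul, smul_mul_smul_comm]
  · intro a b h
    have h0 : pl a * pl b = 0 := by
      ext k
      by_cases hk : k < 2 * n + 1
      · rw [h k hk, coeff_zero]
      · apply coeff_eq_zero_of_natDegree_lt
        have := natDegree_mul_le (p := pl a) (q := pl b)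
        have h1 := pl_natDegree a
        have h2 := pl_natDegree b
        omega
    rcases mul_eq_zero.mp h0 with h1 | h1
    · left; exact pl_eq_zero _ h1
    · right; exact pl_eq_zero _ h1

lemma estimate (n : ℕ) (x y c D : ℕ → ℝ) (B δ : ℝ) (hB : 1 ≤ B) (hδ : 0 < δ)
    (hδ' : n ^ 2 * B ^ 2 * δ ≤ 1 / 64)
    (hD : ∀ i < n - 1, 0 < D i) (hDD : ∀ i < n - 1, ∀ j < i, D j ≤ δ * D i)
    (hc : ∀ i < n - 1, c i ^ 2 ≤ δ * D i)
    (hx : ∀ i, |x i| ≤ B) (hy : ∀ i, |y i| ≤ B)
    (hr : ∀ i < n - 1, x (i + 1) + y (i + 1) = c i - ∑ j ∈ range i, x (j + 1) * y (i - j))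
    (h0 : 0 ≤ ∑ i ∈ range (n - 1), x (i + 1) * y (i + 1) / D i) :
    ∑ i ∈ range (n - 1), (x (i + 1) ^ 2 + y (i + 1) ^ 2) / D i ≤ 4 * n * δ := by
  set Q : ℕ → ℝ := fun i => x (i + 1) ^ 2 + y (i + 1) ^ 2 with hQ
  set S : ℝ := ∑ i ∈ range (n - 1), Q i / D i with hS
  have hQ0 : ∀ i, 0 ≤ Q i := fun i => by positivity
  have hQB : ∀ i, Q i ≤ 2 * B ^ 2 := by
    intro i
    have h1 : x (i + 1) ^ 2 ≤ B ^ 2 := sq_le_sq' (by linarith [abs_le.mp (hx (i + 1))])
      (by linarith [abs_le.mp (hx (i + 1))])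
    have h2 : y (i + 1) ^ 2 ≤ B ^ 2 := sq_le_sq' (by linarith [abs_le.mp (hy (i + 1))])
      (by linarith [abs_le.mp (hy (i + 1))])
    simp only [hQ]
    linarith
  have hT : ∀ i, |∑ j ∈ range i, x (j + 1) * y (i - j)| ≤ 1 / 2 * ∑ j ∈ range i, Q j := by
    intro i
    have h1 : |∑ j ∈ range i, x (j + 1) * y (i - j)| ≤
        ∑ j ∈ range i, (1 / 2 * x (j + 1) ^ 2 + 1 / 2 * y (i - j) ^ 2) := by
      refine (abs_sum_le_sum_abs _ _).trans (sum_le_sum fun j _ => ?_)
      rw [abs_le]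
      constructor
      · nlinarith [sq_nonneg (x (j + 1) + y (i - j))]
      · nlinarith [sq_nonneg (x (j + 1) - y (i - j))]
    have h2 : ∑ j ∈ range i, y (i - j) ^ 2 = ∑ j ∈ range i, y (j + 1) ^ 2 := by
      rw [← sum_range_reflect]
      apply sum_congr rfl
      intro j hj
      rw [mem_range] at hj
      congr 2
      omega
    rw [sum_add_distrib, ← mul_sum, ← mul_sum, h2] at h1
    simp only [hQ, sum_add_distrib]
    linarith
  have hr2 : ∀ i < n - 1, (x (i + 1) + y (i + 1)) ^ 2 / D i ≤ 2 * δ + n * B ^ 2 * δ * S := by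
    intro i hi
    set N : ℝ := ∑ j ∈ range i, Q j with hN
    have hN0 : 0 ≤ N := sum_nonneg fun j _ => hQ0 j
    have hNB : N ≤ n * (2 * B ^ 2) := by
      calc N ≤ ∑ j ∈ range i, 2 * B ^ 2 := sum_le_sum fun j _ => hQB j
        _ = i * (2 * B ^ 2) := by rw [sum_const, card_range, nsmul_eq_mul]
        _ ≤ n * (2 * B ^ 2) := by
          have : (i : ℝ) ≤ n := by exact_mod_cast (by omega : i ≤ n)
          have h2 : 0 ≤ 2 * B ^ 2 := by positivity
          exact mul_le_mul_of_nonneg_right this h2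
    have hND : N ≤ δ * D i * S := by
      have h1 : ∀ j ∈ range i, Q j ≤ δ * D i * (Q j / D j) := by
        intro j hj
        rw [mem_range] at hj
        have h2 := hDD i hi j hj
        have h3 := hD j (by omega)
        rw [← mul_div_assoc, le_div_iff₀ h3]
        nlinarith [hQ0 j]
      calc N ≤ ∑ j ∈ range i, δ * D i * (Q j / D j) := sum_le_sum h1
        _ = δ * D i * ∑ j ∈ range i, Q j / D j := by rw [mul_sum]
        _ ≤ δ * D i * S := by
          apply mul_le_mul_of_nonneg_left _ (mul_nonneg hδ.le (hD i hi).le)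
          apply sum_le_sum_of_subset_of_nonneg
          · intro j hj
            rw [mem_range] at hj ⊢
            omega
          · intro j hj _
            rw [mem_range] at hj
            exact div_nonneg (hQ0 j) (hD j hj).le
    have hTi := hT i
    rw [← hN] at hTi
    set T : ℝ := ∑ j ∈ range i, x (j + 1) * y (i - j) with hTdef
    have hT2 : T ^ 2 ≤ 1 / 4 * N ^ 2 := by
      have := sq_le_sq' (by linarith [abs_le.mp hTi]) (abs_le.mp hTi).2
      nlinarith [this]
    rw [hr i hi, div_le_iff₀ (hD i hi)]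
    have hci := hc i hi
    have h5 : (c i - T) ^ 2 ≤ 2 * c i ^ 2 + 2 * T ^ 2 := by nlinarith [sq_nonneg (c i + T)]
    have h6 : N ^ 2 ≤ n * (2 * B ^ 2) * (δ * D i * S) := by
      rw [sq]
      exact mul_le_mul hNB hND hN0 (by positivity)
    nlinarith [h5, h6, hT2, hci]
  have hS0 : 0 ≤ S := by
    apply sum_nonneg
    intro i hi
    rw [mem_range] at hi
    exact div_nonneg (hQ0 i) (hD i hi).le
  have h1 : S ≤ ∑ i ∈ range (n - 1), (x (i + 1) + y (i + 1)) ^ 2 / D i := by
    have h2 : ∀ i ∈ range (n - 1), (x (i + 1) + y (i + 1)) ^ 2 / D i =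
        Q i / D i + 2 * (x (i + 1) * y (i + 1) / D i) := by
      intro i _
      simp only [hQ]
      ring
    rw [sum_congr rfl h2, sum_add_distrib, ← mul_sum]
    linarith
  have h2 : S ≤ n * (2 * δ + n * B ^ 2 * δ * S) := by
    calc S ≤ ∑ i ∈ range (n - 1), (x (i + 1) + y (i + 1)) ^ 2 / D i := h1
      _ ≤ ∑ i ∈ range (n - 1), (2 * δ + n * B ^ 2 * δ * S) :=
        sum_le_sum fun i hi => hr2 i (mem_range.mp hi)
      _ = ((n - 1 : ℕ) : ℝ) * (2 * δ + n * B ^ 2 * δ * S) := by
        rw [sum_const, card_range, nsmul_eq_mul]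
      _ ≤ n * (2 * δ + n * B ^ 2 * δ * S) := by
        have h3 : ((n - 1 : ℕ) : ℝ) ≤ n := by exact_mod_cast Nat.sub_le n 1
        apply mul_le_mul_of_nonneg_right h3
        positivity
  have h3 : (n : ℝ) * (2 * δ + n * B ^ 2 * δ * S) = 2 * n * δ + (n ^ 2 * B ^ 2 * δ) * S := by ring
  rw [h3] at h2
  have h4 : (n : ℝ) ^ 2 * B ^ 2 * δ * S ≤ 1 / 64 * S := mul_le_mul_of_nonneg_right hδ' hS0
  linarith


lemma coeff_rec {n : ℕ} (a b : Fin (n+1) → ℝ) (ha : (pl a).coeff 0 = 1) (hb : (pl b).coeff 0 = 1)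
    (i : ℕ) : (pl a).coeff (i + 1) + (pl b).coeff (i + 1) = (pl a * pl b).coeff (i + 1) -
      ∑ j ∈ range i, (pl a).coeff (j + 1) * (pl b).coeff (i - j) := by
  rw [coeff_mul, Finset.Nat.sum_antidiagonal_eq_sum_range_succ_mk, sum_range_succ,
    sum_range_succ']
  simp only [Nat.sub_self, ha, hb, Nat.sub_zero, Nat.add_sub_add_right]
  ring

lemma coeff_top {m : ℕ} (a b : Fin (m+2+1) → ℝ) : (pl a * pl b).coeff (2 * m + 2) =
    (pl a).coeff m * (pl b).coeff (m + 2) + (pl a).coeff (m + 1) * (pl b).coeff (m + 1) +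
      (pl a).coeff (m + 2) * (pl b).coeff m := by
  have h1 : (pl a * pl b).coeff (2 * m + 2) =
      ∑ p ∈ ({(m, m + 2), (m + 1, m + 1), (m + 2, m)} : Finset (ℕ × ℕ)),
        (pl a).coeff p.1 * (pl b).coeff p.2 := by
    rw [coeff_mul]
    symm
    apply sum_subset
    · intro p hp
      simp only [mem_insert, mem_singleton] at hp
      rw [HasAntidiagonal.mem_antidiagonal]
      rcases hp with rfl | rfl | rfl <;> simp <;> omega
    · rintro ⟨i, j⟩ hp hnot
      rw [HasAntidiagonal.mem_antidiagonal] at hp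
      simp only [mem_insert, mem_singleton, Prod.mk.injEq, not_or] at hnot
      simp only at hp ⊢
      by_cases hi : m + 2 < i
      · rw [coeff_eq_zero_of_natDegree_lt (lt_of_le_of_lt (pl_natDegree a) hi), zero_mul]
      by_cases hj : m + 2 < j
      · rw [coeff_eq_zero_of_natDegree_lt (lt_of_le_of_lt (pl_natDegree b) hj), mul_zero]
      exfalso
      omega
  rw [h1, sum_insert (by simp), sum_insert (by simp), sum_singleton]
  ring

lemma coeff_last {n : ℕ} (a b : Fin (n+1) → ℝ) : (pl a * pl b).coeff (2 * n) =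
    (pl a).coeff n * (pl b).coeff n := by
  have := coeff_mul_add_eq_of_natDegree_le (pl_natDegree a) (pl_natDegree b)
  rw [← two_mul] at this
  exact this

/-- sign of the last coefficient -/
lemma mu_nonpos {n : ℕ} (hn : Odd n) (A : ℕ → ℝ) (hA : ∀ i, 0 < A i)
    (a b : Fin (n+1) → ℝ)
    (h : ∀ k < 2 * n, (pl a * pl b).coeff k = if Even k then A (k / 2) else 0) :
    (pl a).coeff n * (pl b).coeff n ≤ 0 := by
  by_contra hcon
  rw [not_le] at hcon
  have hne : (pl a).coeff n ≠ 0 := fun h0 => by rw [h0, zero_mul] at hcon; exact lt_irrefl _ hcon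
  have hdeg : (pl a).natDegree = n := le_antisymm (pl_natDegree a) (le_natDegree_of_ne_zero hne)
  obtain ⟨t, ht⟩ := odd_root (pl a) (by rw [hdeg]; exact hn)
  have h1 : (pl a * pl b).eval t = 0 := by rw [eval_mul, ht, zero_mul]
  have hlt : (pl a * pl b).natDegree < 2 * n + 1 := by
    have := natDegree_mul_le (p := pl a) (q := pl b)
    have h1 := pl_natDegree a
    have h2 := pl_natDegree b
    omega
  rw [eval_eq_sum_range' hlt, sum_range_succ, coeff_last] at h1
  have h2 : 0 ≤ ∑ k ∈ range (2 * n), (pl a * pl b).coeff k * t ^ k := by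
    apply sum_nonneg
    intro k hk
    rw [h k (mem_range.mp hk)]
    split_ifs with he
    · exact mul_nonneg (hA _).le (he.pow_nonneg t)
    · rw [zero_mul]
  have h3 : 0 ≤ (pl a).coeff n * (pl b).coeff n * t ^ (2 * n) :=
    mul_nonneg hcon.le ((even_two_mul n).pow_nonneg t)
  have hn0 : 0 < n := hn.pos
  have h4 : 0 < ∑ k ∈ range (2 * n), (pl a * pl b).coeff k * t ^ k := by
    apply sum_pos'
    · intro k hk
      rw [h k (mem_range.mp hk)]
      split_ifs with he
      · exact mul_nonneg (hA _).le (he.pow_nonneg t)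
      · rw [zero_mul]
    · refine ⟨0, mem_range.mpr (by omega), ?_⟩
      rw [h 0 (by omega)]
      simpa using hA 0
  linarith

/-- the weights -/
noncomputable def wt (n : ℕ) (δ α : ℝ) (i : ℕ) : ℝ :=
  if i = 0 then 1 else if i = n then α else δ ^ (n - 1 - i)

theorem core (n : ℕ) (hn : Odd n) (h3 : 3 ≤ n) : ∃ A : ℕ → ℝ, (∀ i, 0 < A i) ∧ A 0 = 1 ∧
    ∀ a b : Fin (n+1) → ℝ, (pl a).coeff 0 = 1 → (pl b).coeff 0 = 1 →
      (∀ k < 2 * n, (pl a * pl b).coeff k = if Even k then A (k / 2) else 0) →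
      ∑ i ∈ range n, (pl a).coeff (i + 1) * (pl b).coeff (i + 1) / A (i + 1) = 0 → False := by
  obtain ⟨m, hm, hmul⟩ := mul_bound n
  have hn0 : (0 : ℝ) < n := by exact_mod_cast (by omega : 0 < n)
  set B : ℝ := max 1 (4 * n / m) with hB
  have hB1 : 1 ≤ B := le_max_left _ _
  have hB0 : 0 < B := by linarith
  set δ : ℝ := 1 / (64 * n ^ 2 * B ^ 2) with hδ
  have hδ0 : 0 < δ := by positivity
  have hδ' : n ^ 2 * B ^ 2 * δ = 1 / 64 := by
    rw [hδ]
    field_simp
  have hn1 : (1 : ℝ) ≤ n := by exact_mod_cast (by omega : 1 ≤ n)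
  have hδ1 : δ ≤ 1 := by
    have h1 : (1 : ℝ) ≤ n ^ 2 * B ^ 2 := by
      have h2 : (1 : ℝ) ≤ (n : ℝ) ^ 2 := one_le_pow₀ hn1
      have h4 : (1 : ℝ) ≤ B ^ 2 := one_le_pow₀ hB1
      nlinarith
    nlinarith
  set α : ℝ := δ ^ (n - 2) * m / (2 * n) with hα
  have hα0 : 0 < α := by positivity
  have hA : ∀ i, 0 < wt n δ α i := by
    intro i
    unfold wt
    split_ifs
    · exact one_pos
    · exact hα0
    · positivity
  refine ⟨wt n δ α, hA, by simp [wt], ?_⟩
  intro a b ha0 hb0 hk hD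
  have hμ := mu_nonpos hn (wt n δ α) hA a b hk
  set μ : ℝ := (pl a).coeff n * (pl b).coeff n with hμdef
  have hwi : ∀ i < n - 1, wt n δ α (i + 1) = δ ^ (n - 2 - i) := by
    intro i hi
    unfold wt
    rw [if_neg (by omega), if_neg (by omega)]
    congr 1
    omega
  have hwle : ∀ i < n, wt n δ α i ≤ 1 := by
    intro i hi
    unfold wt
    rw [if_neg (by omega : ¬ i = n)]
    split_ifs
    · exact le_refl _
    · exact pow_le_one₀ hδ0.le hδ1
  have hwn : wt n δ α n = α := by
    unfold wt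
    rw [if_neg (by omega), if_pos rfl]
  -- norms
  have hna : ∀ i, |(pl a).coeff i| ≤ ‖a‖ := by
    intro i
    rw [pl_coeff]
    split_ifs with h
    · exact norm_le_pi_norm a _
    · simp
  have hnb : ∀ i, |(pl b).coeff i| ≤ ‖b‖ := by
    intro i
    rw [pl_coeff]
    split_ifs with h
    · exact norm_le_pi_norm b _
    · simp
  have h1a : 1 ≤ ‖a‖ := by
    have := hna 0
    rwa [ha0, abs_one] at this
  have h1b : 1 ≤ ‖b‖ := by
    have := hnb 0
    rwa [hb0, abs_one] at this
  have hsum : ∑ k ∈ range (2 * n + 1), |(pl a * pl b).coeff k| ≤ 2 * n + |μ| := by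
    rw [sum_range_succ, coeff_last, ← hμdef]
    have : ∑ k ∈ range (2 * n), |(pl a * pl b).coeff k| ≤ ∑ k ∈ range (2 * n), (1 : ℝ) := by
      apply sum_le_sum
      intro k hk'
      rw [mem_range] at hk'
      rw [hk k hk']
      split_ifs
      · rw [abs_of_pos (hA _)]
        exact hwle _ (by omega)
      · simp
    rw [sum_const, card_range, nsmul_eq_mul, mul_one] at this
    push_cast at this
    linarith
  have hab : m * (‖a‖ * ‖b‖) ≤ 2 * n + |μ| := (hmul a b).trans hsum
  -- the equation D = 0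
  have hsplit : ∑ i ∈ range (n - 1), (pl a).coeff (i + 1) * (pl b).coeff (i + 1) /
      wt n δ α (i + 1) = -μ / α := by
    have h1 : n = (n - 1) + 1 := by omega
    have h2 : ∑ i ∈ range n, (pl a).coeff (i + 1) * (pl b).coeff (i + 1) / wt n δ α (i + 1) =
        ∑ i ∈ range (n - 1), (pl a).coeff (i + 1) * (pl b).coeff (i + 1) / wt n δ α (i + 1) +
        μ / α := by
      have h4 := sum_range_succ (fun i => (pl a).coeff (i + 1) * (pl b).coeff (i + 1) /
        wt n δ α (i + 1)) (n - 1)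
      have h3 : n - 1 + 1 = n := by omega
      simp only [h3, hwn] at h4
      exact h4
    rw [h2] at hD
    rw [neg_div]
    linarith
  have habs : |μ| = -μ := abs_of_nonpos hμ
  have hμle : |μ| ≤ 2 * n := by
    have h1 : -μ / α ≤ n * (‖a‖ * ‖b‖ / δ ^ (n - 2)) := by
      rw [← hsplit]
      calc ∑ i ∈ range (n - 1), (pl a).coeff (i + 1) * (pl b).coeff (i + 1) / wt n δ α (i + 1)
          ≤ ∑ i ∈ range (n - 1), ‖a‖ * ‖b‖ / δ ^ (n - 2) := by
            apply sum_le_sum
            intro i hi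
            rw [mem_range] at hi
            rw [hwi i hi]
            have h2 : (pl a).coeff (i + 1) * (pl b).coeff (i + 1) ≤ ‖a‖ * ‖b‖ := by
              calc _ ≤ |(pl a).coeff (i + 1) * (pl b).coeff (i + 1)| := le_abs_self _
                _ = |(pl a).coeff (i + 1)| * |(pl b).coeff (i + 1)| := abs_mul _ _
                _ ≤ ‖a‖ * ‖b‖ := mul_le_mul (hna _) (hnb _) (abs_nonneg _) (norm_nonneg _)
            have h3 : δ ^ (n - 2) ≤ δ ^ (n - 2 - i) :=
              pow_le_pow_of_le_one hδ0.le hδ1 (by omega)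
            have h4 : 0 < δ ^ (n - 2) := by positivity
            calc _ ≤ ‖a‖ * ‖b‖ / δ ^ (n - 2 - i) := by
                  apply div_le_div_of_nonneg_right h2
                  positivity
              _ ≤ ‖a‖ * ‖b‖ / δ ^ (n - 2) := by
                  apply div_le_div_of_nonneg_left (by positivity) h4 h3
        _ = ((n - 1 : ℕ) : ℝ) * (‖a‖ * ‖b‖ / δ ^ (n - 2)) := by
            rw [sum_const, card_range, nsmul_eq_mul]
        _ ≤ n * (‖a‖ * ‖b‖ / δ ^ (n - 2)) := by
            have h3 : ((n - 1 : ℕ) : ℝ) ≤ n := by exact_mod_cast Nat.sub_le n 1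
            apply mul_le_mul_of_nonneg_right h3
            positivity
    rw [← habs, div_le_iff₀ hα0, hα] at h1
    have h2 : (n : ℝ) * (‖a‖ * ‖b‖ / δ ^ (n - 2)) * (δ ^ (n - 2) * m / (2 * n)) =
        m * (‖a‖ * ‖b‖) / 2 := by
      field_simp
    rw [h2] at h1
    linarith
  have hab2 : ‖a‖ * ‖b‖ ≤ B := by
    have h1 : m * (‖a‖ * ‖b‖) ≤ 4 * n := by linarith
    have h2 : ‖a‖ * ‖b‖ ≤ 4 * n / m := by
      rw [le_div_iff₀ hm]
      linarith
    exact h2.trans (le_max_right _ _)
  have haB : ‖a‖ ≤ B := by nlinarith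
  have hbB : ‖b‖ ≤ B := by nlinarith
  have hxB : ∀ i, |(pl a).coeff i| ≤ B := fun i => (hna i).trans haB
  have hyB : ∀ i, |(pl b).coeff i| ≤ B := fun i => (hnb i).trans hbB
  have hest := estimate n (fun i => (pl a).coeff i) (fun i => (pl b).coeff i)
    (fun i => if Even (i + 1) then wt n δ α ((i + 1) / 2) else 0) (fun i => wt n δ α (i + 1))
    B δ hB1 hδ0 hδ'.le (fun i _ => hA _)
    (by
      intro i hi j hj
      rw [hwi i hi, hwi j (by omega), ← pow_succ']
      exact pow_le_pow_of_le_one hδ0.le hδ1 (by omega))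
    (by
      intro i hi
      split_ifs with he
      · obtain ⟨k, hk'⟩ := he
        have h1 : (i + 1) / 2 = (k - 1) + 1 := by omega
        rw [h1, hwi (k - 1) (by omega), hwi i hi, ← pow_mul, ← pow_succ']
        exact pow_le_pow_of_le_one hδ0.le hδ1 (by omega)
      · rw [zero_pow two_ne_zero]
        exact mul_nonneg hδ0.le (hA _).le)
    hxB hyB
    (by
      intro i hi
      rw [coeff_rec a b ha0 hb0 i, hk (i + 1) (by omega)])
    (by
      rw [hsplit]
      exact div_nonneg (by linarith) hα0.le)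
  set x : ℕ → ℝ := fun i => (pl a).coeff i with hx
  set y : ℕ → ℝ := fun i => (pl b).coeff i with hy
  have hterm : ∀ i < n - 1, x (i + 1) ^ 2 + y (i + 1) ^ 2 ≤ 4 * n * δ := by
    intro i hi
    have h1 : (x (i + 1) ^ 2 + y (i + 1) ^ 2) / wt n δ α (i + 1) ≤ 4 * n * δ := by
      refine le_trans ?_ hest
      exact single_le_sum (f := fun i => (x (i + 1) ^ 2 + y (i + 1) ^ 2) / wt n δ α (i + 1))
        (fun i _ => div_nonneg (by positivity) (hA _).le) (mem_range.mpr hi)
    rw [div_le_iff₀ (hA _)] at h1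
    have h2 := hwle (i + 1) (by omega)
    have h4 : 0 ≤ 4 * n * δ := by positivity
    nlinarith
  -- final contradiction
  have hsm : 4 * n * δ ≤ 1 / (16 * B ^ 2) := by
    rw [hδ, mul_one_div, div_le_div_iff₀ (by positivity) (by positivity)]
    have : (n : ℝ) ≤ n ^ 2 := by nlinarith
    nlinarith [sq_nonneg B, mul_le_mul_of_nonneg_right this (by positivity : 0 ≤ 64 * B ^ 2)]
  obtain ⟨m', rfl⟩ : ∃ m', n = m' + 2 := ⟨n - 2, by omega⟩
  have htop := coeff_top a b
  rw [hk (2 * m' + 2) (by omega)] at htop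
  have h5 : (2 * m' + 2) / 2 = m' + 1 := by omega
  have hev : Even (2 * m' + 2) := ⟨m' + 1, by ring⟩
  rw [if_pos hev, h5, hwi m' (by omega)] at htop
  have h6 : m' + 2 - 2 - m' = 0 := by omega
  rw [h6, pow_zero] at htop
  have h7 := hterm m' (by omega)
  have h8 := hterm (m' - 1) (by omega)
  have h9 : m' - 1 + 1 = m' := by omega
  rw [h9] at h8
  have hb1 : |x m'| ≤ 1 / (4 * B) := by
    apply abs_le_of_sq_le_sq _ (by positivity)
    have : (1 / (4 * B)) ^ 2 = 1 / (16 * B ^ 2) := by ring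
    rw [this]
    nlinarith [sq_nonneg (y m')]
  have hb2 : |y m'| ≤ 1 / (4 * B) := by
    apply abs_le_of_sq_le_sq _ (by positivity)
    have : (1 / (4 * B)) ^ 2 = 1 / (16 * B ^ 2) := by ring
    rw [this]
    nlinarith [sq_nonneg (x m')]
  have hc1 : x m' * y (m' + 2) ≤ 1 / 4 := by
    calc _ ≤ |x m' * y (m' + 2)| := le_abs_self _
      _ = |x m'| * |y (m' + 2)| := abs_mul _ _
      _ ≤ 1 / (4 * B) * B := mul_le_mul hb1 (hyB _) (abs_nonneg _) (by positivity)
      _ = 1 / 4 := by field_simp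
  have hc2 : x (m' + 2) * y m' ≤ 1 / 4 := by
    calc _ ≤ |x (m' + 2) * y m'| := le_abs_self _
      _ = |x (m' + 2)| * |y m'| := abs_mul _ _
      _ ≤ B * (1 / (4 * B)) := mul_le_mul (hxB _) hb2 (abs_nonneg _) (by positivity)
      _ = 1 / 4 := by field_simp
  have hc3 : x (m' + 1) * y (m' + 1) ≤ 1 / 32 := by
    have h10 : 1 / (16 * B ^ 2) ≤ 1 / 16 := by
      apply div_le_div_of_nonneg_left (by norm_num) (by norm_num)
      nlinarith
    nlinarith [sq_nonneg (x (m' + 1) - y (m' + 1))]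
  simp only [hx, hy] at hc1 hc2 hc3
  linarith

/-- the squared norm of the normal vector, as a polynomial -/
noncomputable def epl (n : ℕ) (A : ℕ → ℝ) : ℝ[X] := ∑ j ∈ range (n + 1), C (A j) * X ^ (2 * j)

/-- rescaled coefficient vector -/
noncomputable def sc {n : ℕ} (A : ℕ → ℝ) (a : Fin (n+1) → ℝ) : Fin (n+1) → ℝ :=
  fun j => √(A j) * a j

/-- the inner product -/
noncomputable def rho {n : ℕ} (a b : Fin (n+1) → ℝ) : ℝ := ∑ j : Fin (n+1), a j * b j

/-- the polynomial whose values are the forms -/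
noncomputable def FF {n : ℕ} (A : ℕ → ℝ) (a b : Fin (n+1) → ℝ) : ℝ[X] :=
  pl (sc A a) * pl (sc A b) - C (rho a b) * epl n A

lemma epl_coeff (n : ℕ) (A : ℕ → ℝ) (k : ℕ) (hk : k ≤ 2 * n) :
    (epl n A).coeff k = if Even k then A (k / 2) else 0 := by
  unfold epl
  rw [finsetSum_coeff]
  simp only [coeff_C_mul_X_pow]
  split_ifs with he
  · obtain ⟨r, hr⟩ := he
    rw [sum_eq_single r]
    · rw [if_pos (by omega)]
      congr 1
      omega
    · intro b _ hb
      rw [if_neg (by omega)]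
    · intro hr'
      rw [mem_range] at hr'
      omega
  · apply sum_eq_zero
    intro j _
    rw [if_neg]
    intro h
    exact he ⟨j, by omega⟩

lemma epl_natDegree (n : ℕ) (A : ℕ → ℝ) : (epl n A).natDegree ≤ 2 * n := by
  apply natDegree_sum_le_of_forall_le
  intro j hj
  rw [mem_range] at hj
  exact (natDegree_C_mul_X_pow_le _ _).trans (by omega)

lemma FF_natDegree {n : ℕ} (A : ℕ → ℝ) (a b : Fin (n+1) → ℝ) : (FF A a b).natDegree ≤ 2 * n := by
  unfold FF
  rw [← max_self (2 * n)]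
  apply natDegree_sub_le_of_le
  · have := natDegree_mul_le (p := pl (sc A a)) (q := pl (sc A b))
    have h1 := pl_natDegree (sc A a)
    have h2 := pl_natDegree (sc A b)
    omega
  · exact (natDegree_C_mul_le _ _).trans (epl_natDegree n A)

lemma FF_coeff {n : ℕ} (A : ℕ → ℝ) (a b : Fin (n+1) → ℝ) (k : ℕ) (hk : k ≤ 2 * n) :
    (FF A a b).coeff k = (pl (sc A a) * pl (sc A b)).coeff k -
      rho a b * (if Even k then A (k / 2) else 0) := by
  unfold FF
  rw [coeff_sub, coeff_C_mul, epl_coeff n A k hk]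

lemma sc_smul {n : ℕ} (A : ℕ → ℝ) (s : ℝ) (a : Fin (n+1) → ℝ) : sc A (s • a) = s • sc A a := by
  funext j
  simp only [sc, Pi.smul_apply, smul_eq_mul]
  ring

lemma rho_smul {n : ℕ} (s t : ℝ) (a b : Fin (n+1) → ℝ) :
    rho (s • a) (t • b) = (s * t) * rho a b := by
  simp only [rho, Pi.smul_apply, smul_eq_mul, mul_sum]
  apply sum_congr rfl
  intro j _
  ring

lemma FF_smul {n : ℕ} (A : ℕ → ℝ) (s t : ℝ) (a b : Fin (n+1) → ℝ) :
    FF A (s • a) (t • b) = (s * t) • FF A a b := by
  unfold FF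
  rw [sc_smul, sc_smul, pl_smul, pl_smul, smul_mul_smul_comm, rho_smul, smul_sub]
  congr 1
  rw [C_mul, mul_assoc, smul_eq_C_mul]

lemma sc_ne {n : ℕ} (A : ℕ → ℝ) (hA : ∀ i, 0 < A i) (a : Fin (n+1) → ℝ) (ha : a ≠ 0) :
    sc A a ≠ 0 := by
  intro h
  apply ha
  funext j
  have := congrFun h j
  simp only [sc, Pi.zero_apply, mul_eq_zero] at this
  rcases this with h1 | h1
  · exact absurd h1 (Real.sqrt_pos.mpr (hA _)).ne'
  · simpa using h1

lemma rho_range {n : ℕ} (A : ℕ → ℝ) (hA : ∀ i, 0 < A i) (a b : Fin (n+1) → ℝ) :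
    rho a b = ∑ i ∈ range (n + 1), (pl (sc A a)).coeff i * (pl (sc A b)).coeff i / A i := by
  rw [← Fin.sum_univ_eq_sum_range
    (fun i => (pl (sc A a)).coeff i * (pl (sc A b)).coeff i / A i) (n + 1)]
  unfold rho
  apply sum_congr rfl
  intro j _
  rw [pl_coeff_fin, pl_coeff_fin]
  simp only [sc]
  have h1 := hA j
  have h2 := Real.mul_self_sqrt h1.le
  rw [eq_div_iff h1.ne']
  linear_combination (-(a j * b j)) * h2

theorem jet (n : ℕ) (hn : Odd n) (h3 : 3 ≤ n) : ∃ A : ℕ → ℝ, (∀ i, 0 < A i) ∧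
    ∀ a b : Fin (n+1) → ℝ, (∀ k < 2 * n, (FF A a b).coeff k = 0) → a = 0 ∨ b = 0 := by
  obtain ⟨A, hA, hA0, hcore⟩ := core n hn h3
  refine ⟨A, hA, ?_⟩
  intro a b hk
  by_contra hcon
  rw [not_or] at hcon
  obtain ⟨ha, hb⟩ := hcon
  have hpa : pl (sc A a) ≠ 0 := fun h => sc_ne A hA a ha (pl_eq_zero _ h)
  have hpb : pl (sc A b) ≠ 0 := fun h => sc_ne A hA b hb (pl_eq_zero _ h)
  have hk' : ∀ k < 2 * n, (pl (sc A a) * pl (sc A b)).coeff k =
      rho a b * (if Even k then A (k / 2) else 0) := by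
    intro k hk1
    have := hk k hk1
    rw [FF_coeff A a b k hk1.le] at this
    linarith
  have hρ := rho_range A hA a b
  by_cases h0 : rho a b = 0
  · -- both are multiples of X ^ n
    have hprod : ∀ k < 2 * n, (pl (sc A a) * pl (sc A b)).coeff k = 0 := by
      intro k hk1
      rw [hk' k hk1, h0, zero_mul]
    have h1 := le_natTrailingDegree (mul_ne_zero hpa hpb) hprod
    rw [natTrailingDegree_mul hpa hpb] at h1
    have h2 := natTrailingDegree_le_natDegree (pl (sc A a))
    have h3' := natTrailingDegree_le_natDegree (pl (sc A b))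
    have h4 := pl_natDegree (sc A a)
    have h5 := pl_natDegree (sc A b)
    have h6 : (pl (sc A a)).natTrailingDegree = n := by omega
    have h7 : (pl (sc A b)).natTrailingDegree = n := by omega
    have h8 : (pl (sc A a)).coeff n ≠ 0 := by
      have := mt trailingCoeff_eq_zero.mp hpa
      rwa [trailingCoeff, h6] at this
    have h9 : (pl (sc A b)).coeff n ≠ 0 := by
      have := mt trailingCoeff_eq_zero.mp hpb
      rwa [trailingCoeff, h7] at this
    rw [h0, sum_range_succ, sum_eq_zero, zero_add] at hρ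
    · have := hA n
      exact (div_ne_zero (mul_ne_zero h8 h9) this.ne') hρ.symm
    · intro i hi
      rw [mem_range] at hi
      rw [coeff_eq_zero_of_lt_natTrailingDegree (by omega), zero_mul, zero_div]
  · -- normalise
    set u : ℝ := (pl (sc A a)).coeff 0 with hu
    set v : ℝ := (pl (sc A b)).coeff 0 with hv
    have huv : u * v = rho a b := by
      have := hk' 0 (by omega)
      rw [mul_coeff_zero, if_pos (by simp), Nat.zero_div, hA0, mul_one] at this
      exact this
    have hu0 : u ≠ 0 := fun h => h0 (by rw [← huv, h, zero_mul])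
    have hv0 : v ≠ 0 := fun h => h0 (by rw [← huv, h, mul_zero])
    have hca : ∀ i, (pl (u⁻¹ • sc A a)).coeff i = u⁻¹ * (pl (sc A a)).coeff i := by
      intro i
      rw [pl_smul, coeff_smul, smul_eq_mul]
    have hcb : ∀ i, (pl (v⁻¹ • sc A b)).coeff i = v⁻¹ * (pl (sc A b)).coeff i := by
      intro i
      rw [pl_smul, coeff_smul, smul_eq_mul]
    apply hcore (u⁻¹ • sc A a) (v⁻¹ • sc A b)
    · rw [hca, ← hu, inv_mul_cancel₀ hu0]
    · rw [hcb, ← hv, inv_mul_cancel₀ hv0]
    · intro k hk1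
      rw [pl_smul, pl_smul, smul_mul_smul_comm, coeff_smul, hk' k hk1, ← huv, smul_eq_mul]
      field_simp
    · rw [sum_range_succ', ← hu, ← hv, hA0, div_one, huv] at hρ
      have h10 : ∑ i ∈ range n, (pl (sc A a)).coeff (i + 1) * (pl (sc A b)).coeff (i + 1) /
          A (i + 1) = 0 := by linarith
      have h11 : ∀ i ∈ range n, (pl (u⁻¹ • sc A a)).coeff (i + 1) *
          (pl (v⁻¹ • sc A b)).coeff (i + 1) / A (i + 1) = (u⁻¹ * v⁻¹) *
          ((pl (sc A a)).coeff (i + 1) * (pl (sc A b)).coeff (i + 1) / A (i + 1)) := by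
        intro i _
        rw [hca, hcb]
        ring
      rw [sum_congr rfl h11, ← mul_sum, h10, mul_zero]

theorem cluster (n : ℕ) (hn : Odd n) (h3 : 3 ≤ n) : ∃ A : ℕ → ℝ, (∀ i, 0 < A i) ∧
    ∃ t : Fin (2 * n) → ℝ, ∀ a b : Fin (n+1) → ℝ,
      (∀ j, (FF A a b).eval (t j) = 0) → a = 0 ∨ b = 0 := by
  obtain ⟨A, hA, hjet⟩ := jet n hn h3
  refine ⟨A, hA, ?_⟩
  obtain ⟨m, hm, hmb⟩ := nonsing_bound n (2 * n) (FF A) (by
      intro k
      unfold FF
      have hsc : Continuous fun a : Fin (n+1) → ℝ => sc A a := by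
        unfold sc
        fun_prop
      simp only [coeff_sub, coeff_C_mul]
      apply Continuous.sub
      · simp only [coeff_mul]
        apply continuous_finsetSum
        intro x _
        exact (((pl_coeff_cont x.1).comp hsc).comp continuous_fst).mul
          (((pl_coeff_cont x.2).comp hsc).comp continuous_snd)
      · unfold rho
        fun_prop) (FF_smul A) hjet
  set P : ℝ[X] := ∏ j ∈ range (2 * n), (X - C ((j : ℝ) + 1)) with hP
  have hPm : P.Monic := monic_prod_of_monic _ _ fun j _ => monic_X_sub_C _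
  have hPd : P.natDegree = 2 * n := by
    rw [hP, natDegree_prod_of_monic _ _ fun j _ => monic_X_sub_C _]
    simp only [natDegree_X_sub_C, sum_const, card_range, smul_eq_mul, mul_one]
  set c : ℝ := ∑ k ∈ range (2 * n), |P.coeff k| with hc
  have hc0 : 0 ≤ c := sum_nonneg fun _ _ => abs_nonneg _
  set L : ℝ := A n * (n + 2) with hL
  have hL0 : 0 < L := by
    have := hA n
    positivity
  set ε : ℝ := min 1 (m / (2 * (L * c + 1))) with hε
  have hε0 : 0 < ε := by
    apply lt_min one_pos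
    positivity
  have hε1 : ε ≤ 1 := min_le_left _ _
  have hε2 : ε * (L * c + 1) ≤ m / 2 := by
    have h1 : ε ≤ m / (2 * (L * c + 1)) := min_le_right _ _
    have h2 : 0 < L * c + 1 := by positivity
    rw [le_div_iff₀ (by positivity)] at h1
    linarith
  refine ⟨fun j => ε * ((j : ℕ) + 1), ?_⟩
  intro a b hj
  by_contra hcon
  rw [not_or] at hcon
  obtain ⟨ha, hb⟩ := hcon
  have ha' : 0 < ‖a‖ := norm_pos_iff.mpr ha
  have hb' : 0 < ‖b‖ := norm_pos_iff.mpr hb
  set f : ℕ → ℝ := fun k => (FF A a b).coeff k with hf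
  -- bound of the top coefficient
  have htop : |f (2 * n)| ≤ L * (‖a‖ * ‖b‖) := by
    simp only [hf]
    rw [FF_coeff A a b (2 * n) le_rfl, coeff_last, if_pos (even_two_mul n),
      Nat.mul_div_cancel_left n two_pos]
    have h1 : (pl (sc A a)).coeff n = √(A n) * a (Fin.last n) := by
      have := pl_coeff_fin (sc A a) (Fin.last n)
      rw [Fin.val_last] at this
      rw [this]
      simp [sc]
    have h2 : (pl (sc A b)).coeff n = √(A n) * b (Fin.last n) := by
      have := pl_coeff_fin (sc A b) (Fin.last n)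
      rw [Fin.val_last] at this
      rw [this]
      simp [sc]
    have h4 : √(A n) * a (Fin.last n) * (√(A n) * b (Fin.last n)) =
        A n * (a (Fin.last n) * b (Fin.last n)) := by
      have := Real.mul_self_sqrt (hA n).le
      linear_combination (a (Fin.last n) * b (Fin.last n)) * this
    have habs : ∀ i, |a i * b i| ≤ ‖a‖ * ‖b‖ := by
      intro i
      rw [abs_mul]
      exact mul_le_mul (norm_le_pi_norm a i) (norm_le_pi_norm b i) (abs_nonneg _) (norm_nonneg _)
    have h5 : |rho a b| ≤ (n + 1) * (‖a‖ * ‖b‖) := by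
      unfold rho
      refine (abs_sum_le_sum_abs _ _).trans ?_
      calc ∑ i : Fin (n+1), |a i * b i| ≤ ∑ i : Fin (n+1), ‖a‖ * ‖b‖ :=
            sum_le_sum fun i _ => habs i
        _ = (n + 1) * (‖a‖ * ‖b‖) := by
            rw [sum_const, card_univ, Fintype.card_fin, nsmul_eq_mul]
            push_cast
            ring
    rw [h1, h2, h4]
    have h6 := habs (Fin.last n)
    have h7 : A n * (a (Fin.last n) * b (Fin.last n)) - rho a b * A n =
        A n * (a (Fin.last n) * b (Fin.last n) - rho a b) := by ring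
    rw [h7, abs_mul, abs_of_pos (hA n), hL, mul_assoc]
    apply mul_le_mul_of_nonneg_left _ (hA n).le
    calc |a (Fin.last n) * b (Fin.last n) - rho a b|
        ≤ |a (Fin.last n) * b (Fin.last n)| + |rho a b| := abs_sub _ _
      _ ≤ (n + 2) * (‖a‖ * ‖b‖) := by linarith
  -- the polynomial identity
  have hG : (FF A a b).comp (C ε * X) = C (f (2 * n) * ε ^ (2 * n)) * P := by
    rw [← sub_eq_zero]
    set R : ℝ[X] := (FF A a b).comp (C ε * X) - C (f (2 * n) * ε ^ (2 * n)) * P with hR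
    have hRc : R.coeff (2 * n) = 0 := by
      rw [hR, coeff_sub, comp_C_mul_X_coeff, coeff_C_mul]
      have : P.coeff (2 * n) = 1 := by
        have := hPm.coeff_natDegree
        rwa [hPd] at this
      rw [this, mul_one]
      simp [hf]
    have hRd : R.natDegree ≤ 2 * n := by
      rw [hR, ← max_self (2 * n)]
      apply natDegree_sub_le_of_le
      · refine natDegree_comp_le.trans ?_
        have h1 : (C ε * X : ℝ[X]).natDegree ≤ 1 :=
          (natDegree_C_mul_le _ _).trans natDegree_X.le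
        calc (FF A a b).natDegree * (C ε * X : ℝ[X]).natDegree ≤ (2 * n) * 1 :=
              Nat.mul_le_mul (FF_natDegree A a b) h1
          _ = 2 * n := mul_one _
      · exact (natDegree_C_mul_le _ _).trans hPd.le
    have hRd' : R.natDegree < 2 * n := by
      rcases lt_or_eq_of_le hRd with h | h
      · exact h
      · exfalso
        have h1 : R.leadingCoeff = 0 := by rw [leadingCoeff, h, hRc]
        rw [leadingCoeff_eq_zero] at h1
        rw [h1, natDegree_zero] at h
        omega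
    apply eq_zero_of_natDegree_lt_card_of_eval_eq_zero R
      (f := fun j : Fin (2 * n) => ((j : ℕ) : ℝ) + 1)
    · intro i j hij
      simp only [add_left_inj, Nat.cast_inj] at hij
      exact Fin.ext hij
    · intro j
      have h1 := hj j
      simp only at h1
      rw [hR, eval_sub, eval_comp, eval_mul, eval_mul, eval_C, eval_C, eval_X, h1, hP, eval_prod]
      rw [prod_eq_zero (mem_range.mpr j.isLt) (by simp), mul_zero, sub_zero]
    · rw [Fintype.card_fin]
      exact hRd'
  have hfk : ∀ k < 2 * n, |f k| ≤ ε * (L * (‖a‖ * ‖b‖)) * |P.coeff k| := by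
    intro k hk
    have h1 := congrArg (fun q => q.coeff k) hG
    simp only [comp_C_mul_X_coeff, coeff_C_mul] at h1
    have h2 : f k = f (2 * n) * ε ^ (2 * n - k) * P.coeff k := by
      have h4 : ε ^ (2 * n) = ε ^ (2 * n - k) * ε ^ k := by
        rw [← pow_add]
        congr 1
        omega
      rw [h4] at h1
      have h5 : ε ^ k ≠ 0 := (pow_pos hε0 k).ne'
      apply mul_right_cancel₀ h5
      rw [hf] at h1 ⊢
      simp only at h1 ⊢
      linear_combination h1
    rw [h2, abs_mul, abs_mul, abs_of_pos (pow_pos hε0 _)]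
    apply mul_le_mul_of_nonneg_right _ (abs_nonneg _)
    have h6 : ε ^ (2 * n - k) ≤ ε := by
      calc ε ^ (2 * n - k) ≤ ε ^ 1 := pow_le_pow_of_le_one hε0.le hε1 (by omega)
        _ = ε := pow_one ε
    rw [mul_comm ε]
    exact mul_le_mul htop h6 (pow_pos hε0 _).le (by positivity)
  have hfin : m * (‖a‖ * ‖b‖) ≤ ε * (L * c) * (‖a‖ * ‖b‖) := by
    calc m * (‖a‖ * ‖b‖) ≤ ∑ k ∈ range (2 * n), |(FF A a b).coeff k| := hmb a b
      _ ≤ ∑ k ∈ range (2 * n), ε * (L * (‖a‖ * ‖b‖)) * |P.coeff k| :=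
          sum_le_sum fun k hk => hfk k (mem_range.mp hk)
      _ = ε * (L * c) * (‖a‖ * ‖b‖) := by
          rw [← mul_sum, ← hc]
          ring
  have hab : 0 < ‖a‖ * ‖b‖ := by positivity
  have h20 := le_of_mul_le_mul_right hfin hab
  nlinarith

open Pool.Agent.Lib_helper96.PhaseRetrieval

open scoped InnerProductSpace

/-- the normal vector with parameter `t` -/
noncomputable def nrm (n : ℕ) (A : ℕ → ℝ) (t : ℝ) : EuclideanSpace ℝ (Fin (n + 1)) :=
  WithLp.toLp 2 (fun j => √(A j) * t ^ (j : ℕ))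

lemma inner_nrm (n : ℕ) (A : ℕ → ℝ) (t : ℝ) (x : EuclideanSpace ℝ (Fin (n + 1))) :
    ⟪nrm n A t, x⟫_ℝ = (pl (sc A (fun j => x j))).eval t := by
  rw [PiLp.inner_apply]
  simp only [nrm, pl, sc, eval_finsetSum, eval_mul, eval_C, eval_pow, eval_X]
  apply sum_congr rfl
  intro j _
  simp only [RCLike.inner_apply, conj_trivial]
  ring

lemma norm_nrm (n : ℕ) (A : ℕ → ℝ) (hA : ∀ i, 0 < A i) (t : ℝ) :
    ‖nrm n A t‖ ^ 2 = (epl n A).eval t := by
  rw [EuclideanSpace.norm_sq_eq]
  simp only [epl, eval_finsetSum, eval_mul, eval_C, eval_pow, eval_X]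
  rw [← Fin.sum_univ_eq_sum_range (fun j => A j * t ^ (2 * j)) (n + 1)]
  apply sum_congr rfl
  intro j _
  simp only [nrm, Real.norm_eq_abs, sq_abs, mul_pow]
  rw [Real.sq_sqrt (hA j).le, ← pow_mul, mul_comm 2]

lemma inner_rho (n : ℕ) (a b : EuclideanSpace ℝ (Fin (n + 1))) :
    ⟪a, b⟫_ℝ = rho (fun j => a j) (fun j => b j) := by
  rw [PiLp.inner_apply]
  apply sum_congr rfl
  intro j _
  simp only [RCLike.inner_apply, conj_trivial]
  ring

/-- the polarised form of a hyperplane projection -/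
lemma hyper_form {E : Type*} [NormedAddCommGroup E] [InnerProductSpace ℝ E] (φ x y : E)
    (h : ‖(ℝ ∙ φ)ᗮ.starProjection x‖ = ‖(ℝ ∙ φ)ᗮ.starProjection y‖) :
    ⟪φ, x + y⟫_ℝ * ⟪φ, x - y⟫_ℝ = ⟪x + y, x - y⟫_ℝ * ‖φ‖ ^ 2 := by
  have key : ∀ z : E, ‖(ℝ ∙ φ)ᗮ.starProjection z‖ ^ 2 * ‖φ‖ ^ 2 =
      ‖z‖ ^ 2 * ‖φ‖ ^ 2 - ⟪φ, z⟫_ℝ ^ 2 := by
    intro z
    rw [Submodule.starProjection_orthogonal_val, Submodule.starProjection_singleton]
    by_cases hφ : φ = 0
    · rw [hφ]
      simp
    have h1 : ‖φ‖ ≠ 0 := norm_ne_zero_iff.mpr hφ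
    rw [norm_sub_sq_real, inner_smul_right, norm_smul, real_inner_comm]
    simp only [RCLike.ofReal_real_eq_id, id_eq, norm_div, norm_pow, Real.norm_eq_abs, abs_norm]
    rw [mul_pow, div_pow, sq_abs]
    field_simp
    ring
  have hx := key x
  have hy := key y
  rw [h] at hx
  have h1 : ⟪x + y, x - y⟫_ℝ = ‖x‖ ^ 2 - ‖y‖ ^ 2 := by
    rw [inner_sub_right, inner_add_left, inner_add_left, real_inner_self_eq_norm_sq,
      real_inner_self_eq_norm_sq, real_inner_comm x y]
    ring
  rw [h1, inner_add_right, inner_sub_right]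
  linear_combination hx - hy

theorem upper (n : ℕ) (hn : Odd n) (h3 : 3 ≤ n) :
    ∃ W : Fin (2 * n) → Submodule ℝ (EuclideanSpace ℝ (Fin (n + 1))),
      (∀ j, Module.finrank ℝ (W j) = n) ∧ ∀ x y : EuclideanSpace ℝ (Fin (n + 1)),
        (∀ j, ‖(W j).starProjection x‖ = ‖(W j).starProjection y‖) → x = y ∨ x = -y := by
  obtain ⟨A, hA, t, ht⟩ := cluster n hn h3
  have hne : ∀ s, nrm n A s ≠ 0 := by
    intro s h
    have h1 := congrArg (fun z : EuclideanSpace ℝ (Fin (n + 1)) => z ⟨0, by omega⟩) h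
    simp only [nrm, pow_zero, mul_one, PiLp.zero_apply] at h1
    exact (Real.sqrt_pos.mpr (hA 0)).ne' h1
  refine ⟨fun j => (ℝ ∙ nrm n A (t j))ᗮ, ?_, ?_⟩
  · intro j
    have h1 := (ℝ ∙ nrm n A (t j)).finrank_add_finrank_orthogonal
    rw [finrank_span_singleton (hne _), finrank_euclideanSpace_fin] at h1
    change Module.finrank ℝ ((ℝ ∙ nrm n A (t j))ᗮ : Submodule ℝ (EuclideanSpace ℝ (Fin (n + 1)))) = n
    omega
  · intro x y h
    have key : ∀ j, (FF A (fun i => (x + y) i) (fun i => (x - y) i)).eval (t j) = 0 := by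
      intro j
      have h1 := hyper_form _ x y (h j)
      rw [inner_nrm, inner_nrm, norm_nrm n A hA, inner_rho] at h1
      unfold FF
      rw [eval_sub, eval_mul, eval_mul, eval_C, h1, sub_self]
    rcases ht _ _ key with h1 | h1
    · right
      apply eq_neg_of_add_eq_zero_left
      ext i
      exact congrFun h1 i
    · left
      apply sub_eq_zero.mp
      ext i
      exact congrFun h1 i

/-- lower bound for hyperplanes -/
theorem lower {M N : ℕ} (hM : 2 ≤ M) (W : Fin N → Submodule ℝ (EuclideanSpace ℝ (Fin M)))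
    (h1 : ∀ n, Module.finrank ℝ (W n) = M - 1) (hW : ∀ x y : EuclideanSpace ℝ (Fin M),
      (∀ n, ‖(W n).starProjection x‖ = ‖(W n).starProjection y‖) → x = y ∨ x = -y) :
    2 * M - 2 ≤ N := by
  by_contra hN
  have hφ : ∀ n, ∃ φ : EuclideanSpace ℝ (Fin M), ∀ w ∈ (W n)ᗮ, ∃ c : ℝ, c • φ = w := by
    intro n
    have h2 := (W n).finrank_add_finrank_orthogonal
    rw [h1 n, finrank_euclideanSpace_fin] at h2
    obtain ⟨v, -, hv⟩ := finrank_eq_one_iff'.mp (by omega : Module.finrank ℝ (W n)ᗮ = 1)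
    refine ⟨v, fun w hw => ?_⟩
    obtain ⟨c, hc⟩ := hv ⟨w, hw⟩
    exact ⟨c, by rw [← Submodule.coe_smul, hc]⟩
  choose φ hφ using hφ
  have hfix : ∀ n z, ⟪φ n, z⟫_ℝ = 0 → (W n).starProjection z = z := by
    intro n z hz
    have h2 := starProjection_eq_zero_of_inner (W n)ᗮ (φ n) z (hφ n) hz
    rw [Submodule.starProjection_orthogonal_val, sub_eq_zero] at h2
    exact h2.symm
  obtain ⟨a, ha0, ha⟩ := exists_orth (by omega : 1 ≤ M)
    (fun i : Fin (M - 1) => if h : (i : ℕ) < N then φ ⟨i, h⟩ else 0)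
  obtain ⟨b, hb0, hb⟩ := exists_orth (by omega : 1 ≤ M)
    (fun i : Fin (M - 1) => if (i : ℕ) = 0 then a else
      if h : (i : ℕ) - 1 + (M - 1) < N then φ ⟨(i : ℕ) - 1 + (M - 1), h⟩ else 0)
  have hab : ⟪a, b⟫_ℝ = 0 := by
    have := hb ⟨0, by omega⟩
    simpa using this
  have hPab : ∀ n, ⟪(W n).starProjection a, (W n).starProjection b⟫_ℝ = 0 := by
    intro n
    have hPP : ∀ u v, ⟪(W n).starProjection u, (W n).starProjection v⟫_ℝ =
        ⟪u, (W n).starProjection v⟫_ℝ := by
      intro u v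
      rw [Submodule.inner_starProjection_left_eq_right,
        Submodule.starProjection_eq_self_iff.mpr (Submodule.starProjection_apply_mem _ _)]
    rw [hPP]
    by_cases hn : (n : ℕ) < M - 1
    · have h4 := ha ⟨n, hn⟩
      simp only [n.isLt, dif_pos] at h4
      rw [← Submodule.inner_starProjection_left_eq_right, hfix n a h4, hab]
    · have h4 := hb ⟨n - (M - 1) + 1, by omega⟩
      have h5 : (n : ℕ) - (M - 1) + 1 - 1 + (M - 1) = n := by omega
      simp only [h5, n.isLt, dif_pos, Nat.add_eq_zero_iff, one_ne_zero, and_false, if_false] at h4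
      rw [hfix n b h4, hab]
  have key : ∀ n, ‖(W n).starProjection (a + b)‖ = ‖(W n).starProjection (a - b)‖ := by
    intro n
    have h2 : ‖(W n).starProjection (a + b)‖ ^ 2 = ‖(W n).starProjection (a - b)‖ ^ 2 := by
      rw [map_add, map_sub, norm_add_sq_real, norm_sub_sq_real, hPab n]
      ring
    exact (pow_left_inj₀ (norm_nonneg _) (norm_nonneg _) two_ne_zero).mp h2
  rcases hW _ _ key with h | h
  · apply hb0
    have h6 : (2 : ℝ) • b = 0 := by
      have : (2 : ℝ) • b = (a + b) - (a - b) := by module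
      rw [this, h, sub_self]
    exact (smul_eq_zero.mp h6).resolve_left two_ne_zero
  · apply ha0
    have h6 : (2 : ℝ) • a = 0 := by
      have : (2 : ℝ) • a = (a + b) + (a - b) := by module
      rw [this, h, neg_add_cancel]
    exact (smul_eq_zero.mp h6).resolve_left two_ne_zero

end Pool.Agent.Lib_helper24.Hyperplanes
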