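import Pool.Agent.Lib_helper45.REll.Api

/-!
# BLOCK DLR: the degree of `R`
-/

open scoped BigOperators ComplexConjugate
open Polynomial

namespace Pool.Agent.REll

namespace DLR

/-- `∏_{i=1}^n (q^i - 1)` -/
noncomputable def Pn (q : ℂ) (n : ℕ) : ℂ := ∏ i ∈ Finset.Icc 1 n, (q ^ i - 1)

theorem Pn_zero (q : ℂ) : Pn q 0 = 1 := by simp [Pn]

theorem Pn_succ (q : ℂ) (n : ℕ) : Pn q (n + 1) = Pn q n * (q ^ (n + 1) - 1) := by
  unfold Pn
  rw [Finset.prod_Icc_succ_top (by omega)]

theorem pow_ne {q : ℕ} (hq : 2 ≤ q) {n : ℕ} (hn : 1 ≤ n) : ((q : ℂ) ^ n - 1) ≠ 0 := by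
  have h1 : 1 < q ^ n := Nat.one_lt_pow (by omega) (by omega)
  intro h
  have h2 : ((q ^ n : ℕ) : ℂ) = ((1 : ℕ) : ℂ) := by push_cast; linear_combination h
  have h3 : q ^ n = 1 := by exact_mod_cast h2
  omega

theorem Pn_ne {q : ℕ} (hq : 2 ≤ q) (n : ℕ) : Pn (q : ℂ) n ≠ 0 := by
  unfold Pn
  apply Finset.prod_ne_zero_iff.mpr
  intro i hi
  exact pow_ne hq (Finset.mem_Icc.mp hi).1

/-- `∑_{m<n} (-1)^{n-1-m} q^m / P_m = 1 / P_{n-1}` -/
theorem sum1 {q : ℕ} (hq : 2 ≤ q) (n : ℕ) :
    ∑ m ∈ Finset.range (n + 1), (-1) ^ (n - m) * (q : ℂ) ^ m / Pn q m = 1 / Pn q n := by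
  induction n with
  | zero => simp [Pn_zero]
  | succ n ih =>
    rw [Finset.sum_range_succ]
    have h1 : ∑ m ∈ Finset.range (n + 1), (-1) ^ (n + 1 - m) * (q : ℂ) ^ m / Pn q m
        = - ∑ m ∈ Finset.range (n + 1), (-1) ^ (n - m) * (q : ℂ) ^ m / Pn q m := by
      rw [← Finset.sum_neg_distrib]
      apply Finset.sum_congr rfl
      intro m hm
      have : n + 1 - m = (n - m) + 1 := by
        have := Finset.mem_range.mp hm
        omega
      rw [this, pow_succ]
      ring
    rw [h1, ih, Nat.sub_self, Pn_succ]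
    have h2 := Pn_ne hq n
    have h3 := pow_ne hq (n := n + 1) (by omega)
    field_simp
    ring

/-- `∑_{a=1}^n r_a / P_{n-a} = n / P_n`, written with `a = n - m` -/
theorem sum2 {q : ℕ} (hq : 2 ≤ q) (n : ℕ) :
    ∑ m ∈ Finset.range n, (-1) ^ (n - m - 1) / ((q : ℂ) ^ (n - m) - 1) / Pn q m = n / Pn q n := by
  induction n with
  | zero => simp
  | succ n ih =>
    have h3 := pow_ne hq (n := n + 1) (by omega)
    have key : ((q : ℂ) ^ (n + 1) - 1) *
        ∑ m ∈ Finset.range (n + 1), (-1) ^ (n + 1 - m - 1) / ((q : ℂ) ^ (n + 1 - m) - 1) / Pn q m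
        = 1 / Pn q n + n / Pn q n := by
      have e1 : ((q : ℂ) ^ (n + 1) - 1) *
        ∑ m ∈ Finset.range (n + 1), (-1) ^ (n + 1 - m - 1) / ((q : ℂ) ^ (n + 1 - m) - 1) / Pn q m
        = ∑ m ∈ Finset.range (n + 1), (-1) ^ (n - m) * (q : ℂ) ^ m / Pn q m
          + ∑ m ∈ Finset.range (n + 1), ((q : ℂ) ^ m - 1) *
            ((-1) ^ (n + 1 - m - 1) / ((q : ℂ) ^ (n + 1 - m) - 1) / Pn q m) := by
        rw [Finset.mul_sum, ← Finset.sum_add_distrib]
        apply Finset.sum_congr rfl
        intro m hm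
        have hm' := Finset.mem_range.mp hm
        have h4 := pow_ne hq (n := n + 1 - m) (by omega)
        have h5 := Pn_ne hq m
        have h6 : (q : ℂ) ^ (n + 1) = q ^ m * q ^ (n + 1 - m) := by
          rw [← pow_add]; congr 1; omega
        have h7 : n + 1 - m - 1 = n - m := by omega
        rw [h6, h7]
        field_simp
        ring
      rw [e1, sum1 hq]
      congr 1
      rw [Finset.sum_range_succ', ← ih]
      simp only [pow_zero, sub_self, zero_mul, add_zero]
      apply Finset.sum_congr rfl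
      intro m hm
      have hm' := Finset.mem_range.mp hm
      have h5 := Pn_ne hq m
      have h8 := pow_ne hq (n := m + 1) (by omega)
      rw [Pn_succ]
      have h7 : n + 1 - (m + 1) = n - m := by omega
      rw [h7]
      have h4 := pow_ne hq (n := n - m) (by omega)
      field_simp
    have h5 := Pn_ne hq n
    rw [Pn_succ]
    have : ∑ m ∈ Finset.range (n + 1), (-1) ^ (n + 1 - m - 1) / ((q : ℂ) ^ (n + 1 - m) - 1) / Pn q m
      = (1 / Pn q n + n / Pn q n) / ((q : ℂ) ^ (n + 1) - 1) := by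
      rw [← key]; field_simp
    rw [this]
    push_cast
    field_simp
    ring

end DLR

variable {F : Type} [Field F] [Finite F] {K : Type} [Field K] [Finite K] [Algebra F K]

open CF DLR

theorem dl_allOne (n : ℕ) : dl n (allOne : CF F) = 1 / Pn (Nat.card F : ℂ) n := by
  simp [dl, Pn]

theorem cp_refl (n : ℕ) : cp (LinearEquiv.refl F (Fin n → F)) = (X - 1) ^ n := by
  have : Module.Finite F (Fin n → F) := Module.Finite.of_finite
  unfold cp
  have : ((LinearEquiv.refl F (Fin n → F) : (Fin n → F) ≃ₗ[F] (Fin n → F)) :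
    (Fin n → F) →ₗ[F] (Fin n → F)) = 1 := rfl
  rw [this, LinearMap.charpoly_one]
  simp

theorem dl_Bf (θ : MulChar K ℂ) (n : ℕ) : dl n (Bf K θ : CF F) = n / Pn (Nat.card F : ℂ) n := by
  unfold dl
  congr 1
  show (((cp (LinearEquiv.refl F (Fin n → F))).map (algebraMap F K)).roots.map
    (fun x => θ x)).sum = n
  rw [cp_refl, Polynomial.map_pow, Polynomial.map_sub, Polynomial.map_X, Polynomial.map_one,
    Polynomial.roots_pow]
  have h : (X - 1 : K[X]).roots = {1} := by
    have := Polynomial.roots_X_sub_C (1 : K)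
    simpa using this
  rw [h, Multiset.map_nsmul, Multiset.map_singleton, Multiset.sum_nsmul]
  simp

/-! ## BLOCK DLR (uses `dl_mul`): degree of `R`. -/
theorem dl_R (θ : MulChar K ℂ) (R : CF F) (hR : R * allOne = Bf K θ) (n : ℕ) (hn : 1 ≤ n) :
    dl n R = (-1) ^ (n - 1) / ((Nat.card F : ℂ) ^ n - 1) := by
  have hq : 2 ≤ Nat.card F := Finite.one_lt_card
  have h0 : dl 0 R = 0 := by
    have h := dl_mul 0 R allOne
    rw [hR, dl_Bf] at h
    simp [dl_allOne, Pn_zero] at h
    exact h.symm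
  have main : ∀ n, dl n R = if n = 0 then 0 else
      (-1) ^ (n - 1) / ((Nat.card F : ℂ) ^ n - 1) := by
    intro n
    induction n using Nat.strong_induction_on with
    | _ n ih =>
      rcases Nat.eq_zero_or_pos n with rfl | hn
      · simpa using h0
      have h := dl_mul n R allOne
      rw [hR, dl_Bf, Finset.sum_range_succ, Nat.sub_self, dl_allOne, Pn_zero] at h
      have e : ∑ a ∈ Finset.range n, dl a R * dl (n - a) (allOne : CF F)
          = ∑ m ∈ Finset.range (n - 1), (-1) ^ (n - (m + 1) - 1) /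
            ((Nat.card F : ℂ) ^ (n - (m + 1)) - 1) / Pn (Nat.card F) (m + 1) := by
        rw [← Finset.sum_range_reflect]
        obtain ⟨k, rfl⟩ : ∃ k, n = k + 1 := ⟨n - 1, by omega⟩
        rw [Finset.sum_range_succ]
        have z : dl (k + 1 - 1 - k) R = 0 := by
          have : k + 1 - 1 - k = 0 := by omega
          rw [this]; exact h0
        rw [z, zero_mul, add_zero]
        apply Finset.sum_congr rfl
        intro m hm
        have hm' := Finset.mem_range.mp hm
        have a1 : k + 1 - 1 - m = k + 1 - (m + 1) := by omega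
        rw [a1, ih _ (by omega), if_neg (by omega), dl_allOne]
        have a2 : k + 1 - (k + 1 - (m + 1)) = m + 1 := by omega
        rw [a2]
        ring
      have s := sum2 hq n
      obtain ⟨k, rfl⟩ : ∃ k, n = k + 1 := ⟨n - 1, by omega⟩
      rw [Finset.sum_range_succ'] at s
      rw [e] at h
      simp only [Nat.add_sub_cancel, Nat.sub_zero, Pn_zero] at s h ⊢
      rw [if_neg (by omega)]
      push_cast at h s
      linear_combination -s - h
  rw [main, if_neg (by omega)]

end Pool.Agent.REll
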