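import Pool.Agent.Lib_helper45.REll.Defs3
import Pool.Agent.Lib_helper53.REll_RB

/-!
# BLOCK TAU: the inner product of the elliptic indicator with `R`
(once ERR/RB are there: import the file with `ip_R_of_prim` and `IsGen` instead of `Wanted2`)
-/

open scoped BigOperators ComplexConjugate
open Polynomial

namespace Pool.Agent.REll

variable {F : Type} [Field F] [Finite F] {K : Type} [Field K] [Finite K] [Algebra F K]

open CF

namespace TAU

theorem finsum_sub [Fintype K] (p : K → Prop) [DecidablePred p] (f : K → ℂ) :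
    ∑ᶠ x : {x : K // p x}, f x.1 = ∑ x ∈ Finset.univ.filter p, f x := by
  rw [finsum_eq_sum_of_fintype]
  exact (Finset.sum_subtype (Finset.univ.filter p) (by simp) f).symm

theorem ne_zero_of_pow {m : ℕ} (hm : 0 < m) {x : K} (hx : x ^ m = 1) : x ≠ 0 := by
  rintro rfl
  rw [zero_pow (by omega)] at hx
  exact zero_ne_one hx

theorem card_pos' (n : ℕ) (hn : 1 ≤ n) : 0 < Nat.card F ^ n - 1 := by
  have hq : 2 ≤ Nat.card F := Finite.one_lt_card
  have h1 : 1 < Nat.card F ^ n := Nat.one_lt_pow (by omega) (by omega)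
  omega

theorem val_oneT (P : F[X]) (hP : P.Monic) (h0 : P.coeff 0 ≠ 0) [Decidable (Irreducible P)] :
    val (oneT : CF F) P = if Irreducible P then 1 else 0 := by
  classical
  have h := exists_cyc P hP h0
  unfold val
  rw [dif_pos h]
  have h2 : cp h.choose = P := h.choose_spec.1
  show (if Irreducible (cp h.choose) then (1 : ℂ) else 0) = _
  rw [h2]
  split_ifs <;> rfl

theorem minpoly_props (x : K) (hx : x ≠ 0) : (minpoly F x).Monic ∧ (minpoly F x).coeff 0 ≠ 0 ∧
    Irreducible (minpoly F x) := by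
  have hi : IsIntegral F x := Algebra.IsIntegral.isIntegral x
  exact ⟨minpoly.monic hi, minpoly.coeff_zero_ne_zero hi hx, minpoly.irreducible hi⟩

theorem val_minpoly (x : K) (hx : x ≠ 0) (e : ℕ) (he : 1 ≤ e) :
    val (oneT : CF F) (minpoly F x ^ e) = if e = 1 then 1 else 0 := by
  classical
  obtain ⟨h1, h2, h3⟩ := minpoly_props (F := F) x hx
  rw [val_oneT _ (h1.pow e) (by
    rw [Polynomial.coeff_zero_eq_eval_zero, Polynomial.eval_pow,
      ← Polynomial.coeff_zero_eq_eval_zero]
    exact pow_ne_zero _ h2)]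
  by_cases h : e = 1
  · subst h
    simp [h3]
  · rw [if_neg h, if_neg]
    exact not_irreducible_pow h

/-- Möbius inversion over the degrees -/
theorem mobius (θ : K → ℂ) [Fintype K] [DecidableEq K] (n : ℕ) (hn : 1 ≤ n) :
    ∑ x ∈ Finset.univ.filter (fun x : K => x ≠ 0 ∧ (minpoly F x).natDegree = n), θ x =
      ∑ c ∈ n.divisors, (ArithmeticFunction.moebius (n / c) : ℂ) *
        ∑ x ∈ Finset.univ.filter (fun x : K => x ^ (Nat.card F ^ c - 1) = 1), θ x := by
  classical
  have H := (ArithmeticFunction.sum_eq_iff_sum_smul_moebius_eq (R := ℂ)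
    (f := fun n => ∑ x ∈ Finset.univ.filter
      (fun x : K => x ≠ 0 ∧ (minpoly F x).natDegree = n), θ x)
    (g := fun c => ∑ x ∈ Finset.univ.filter
      (fun x : K => x ^ (Nat.card F ^ c - 1) = 1), θ x)).mp ?_ n hn
  · rw [← H, Nat.sum_divisorsAntidiagonal' (f := fun a b =>
      (ArithmeticFunction.moebius a : ℤ) • ∑ x ∈ Finset.univ.filter
      (fun x : K => x ^ (Nat.card F ^ b - 1) = 1), θ x)]
    apply Finset.sum_congr rfl
    intro c hc
    rw [zsmul_eq_mul]
  · intro c hc
    rw [← Finset.sum_biUnion]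
    · apply Finset.sum_congr _ (fun _ _ => rfl)
      ext x
      simp only [Finset.mem_biUnion, Finset.mem_filter, Finset.mem_univ, true_and,
        Nat.mem_divisors]
      constructor
      · rintro ⟨d, ⟨hd, -⟩, hx, rfl⟩
        exact (natDegree_minpoly_dvd c hc x hx).mp hd
      · intro hx
        have hx0 := ne_zero_of_pow (card_pos' (F := F) c hc) hx
        exact ⟨_, ⟨(natDegree_minpoly_dvd c hc x hx0).mpr hx, by omega⟩, hx0, rfl⟩
    · intro i _ j _ hij
      rw [Function.onFun, Finset.disjoint_left]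
      intro x hx hy
      simp only [Finset.mem_filter, Finset.mem_univ, true_and] at hx hy
      exact hij (hx.2.symm.trans hy.2)

end TAU

open TAU

/-! ## BLOCK TAU (uses GAM, RB, KF; Möbius inversion over `deg x ∣ n`) -/
theorem ip_oneT_R (ι : MulChar K ℂ) (hι : IsGen ι) (n : ℕ) (hn : 1 ≤ n) (hK : Big F n K)
    (a : ℕ) (R : CF F) (hR : R * allOne = Bf K (ι ^ a)) :
    ip n oneT R = (tau (Nat.card F) n a : ℂ) := by
  classical
  have := Fintype.ofFinite K
  have hqn : ((Nat.card F : ℂ) ^ n - 1) ≠ 0 := by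
    have h1 := card_pos' (F := F) n hn
    intro h
    have h2 : ((Nat.card F ^ n : ℕ) : ℂ) = ((1 : ℕ) : ℂ) := by push_cast; linear_combination h
    have h3 : Nat.card F ^ n = 1 := by exact_mod_cast h2
    omega
  have h1 : ip n (oneT : CF F) R = conj (ip n (Bf K (ι ^ a)) (oneT : CF F)) := by
    rw [← ip_conj, ip_R_of_prim (ι ^ a) R hR n hn (oneT : CF F) (isPrim_oneT (F := F))]
  have h2 := ip_Bf_prim (ι ^ a) n hn hK (oneT : CF F) (isPrim_oneT (F := F))
  have h3 : (∑ᶠ x : {x : K // x ^ (Nat.card F ^ n - 1) = 1},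
        ((n / (minpoly F x.1).natDegree : ℕ) : ℂ) * (ι ^ a) x.1 *
          conj (val (oneT : CF F) (minpoly F x.1 ^ (n / (minpoly F x.1).natDegree))))
      = ∑ x ∈ Finset.univ.filter (fun x : K => x ≠ 0 ∧ (minpoly F x).natDegree = n),
        (ι ^ a) x := by
    rw [finsum_sub (fun x : K => x ^ (Nat.card F ^ n - 1) = 1)
      (fun x => ((n / (minpoly F x).natDegree : ℕ) : ℂ) * (ι ^ a) x *
          conj (val (oneT : CF F) (minpoly F x ^ (n / (minpoly F x).natDegree))))]
    symm
    apply Finset.sum_subset_zero_on_sdiff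
    · intro x hx
      simp only [Finset.mem_filter, Finset.mem_univ, true_and] at hx ⊢
      exact (natDegree_minpoly_dvd n hn x hx.1).mp (by rw [hx.2])
    · intro x hx
      simp only [Finset.mem_sdiff, Finset.mem_filter, Finset.mem_univ, true_and, not_and] at hx
      have hx0 := ne_zero_of_pow (card_pos' (F := F) n hn) hx.1
      have hd := (natDegree_minpoly_dvd n hn x hx0).mpr hx.1
      have hne := hx.2 hx0
      have hpos : 0 < (minpoly F x).natDegree := Nat.pos_of_dvd_of_pos hd hn
      have he : 1 ≤ n / (minpoly F x).natDegree :=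
        Nat.div_pos (Nat.le_of_dvd hn hd) hpos
      rw [val_minpoly x hx0 _ he, if_neg]
      · simp
      · intro h
        apply hne
        have := Nat.div_mul_cancel hd
        rw [h, one_mul] at this
        exact this
    · intro x hx
      simp only [Finset.mem_filter, Finset.mem_univ, true_and] at hx
      have he : n / (minpoly F x).natDegree = 1 := by
        rw [hx.2]; exact Nat.div_self hn
      rw [he, val_minpoly x hx.1 1 le_rfl, if_pos rfl]
      simp
  rw [h3, mobius _ n hn] at h2
  have h4 : ∀ c ∈ n.divisors, ∑ x ∈ Finset.univ.filter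
      (fun x : K => x ^ (Nat.card F ^ c - 1) = 1), (ι ^ a) x =
      ((Nat.card F : ℂ) ^ c - 1) * (if (Nat.card F ^ c - 1) ∣ a then 1 else 0) := by
    intro c hc
    have hcn := Nat.divisor_le hc
    have hc1 : 1 ≤ c := Nat.pos_of_mem_divisors hc
    have := hι.2 (Nat.card F ^ c - 1) a (hK c hc1 hcn) (card_pos' (F := F) c hc1)
    rw [finsum_sub (fun x : K => x ^ (Nat.card F ^ c - 1) = 1) (fun x => (ι ^ a) x)] at this
    rw [this]
    have h5 := card_pos' (F := F) c hc1
    split_ifs
    · rw [Nat.cast_sub (by omega)]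
      push_cast
      ring
    · simp
  have h5 : ip n (Bf K (ι ^ a)) (oneT : CF F) = ((tau (Nat.card F) n a : ℚ) : ℂ) := by
    have e : ((Nat.card F : ℂ) ^ n - 1) * ip n (Bf K (ι ^ a)) (oneT : CF F) =
        ((Nat.card F : ℂ) ^ n - 1) * ((tau (Nat.card F) n a : ℚ) : ℂ) := by
      rw [h2]
      unfold tau
      push_cast
      rw [mul_div_cancel₀ _ hqn]
      apply Finset.sum_congr rfl
      intro c hc
      rw [h4 c hc]
      split_ifs <;> ring
    exact mul_left_cancel₀ hqn e
  rw [h1, h5]
  exact Complex.conj_eq_iff_real.mpr ⟨(tau (Nat.card F) n a : ℝ), by push_cast; rfl⟩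

end Pool.Agent.REll
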