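import Mathlib
import Pool.Agent.Lib_helper96.PhaseRetrieval

/-!
# Phase retrieval in dimension seven

Twelve four-dimensional subspaces of `ℝ^7` allowing phase retrieval.

Identify `ℝ^7` with `ℝ × ℂ^3` (weights `0, 1, 2, 3` of the circle group). Eleven of the subspaces are
images of one four-dimensional subspace under rotations `z` of the circle group, the twelfth is the
sum of the last two weight spaces. A pair `u, v` violating phase retrieval satisfies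
`H6 = u3 v3 = 0`, `H4 = u1 v3 + u3 v1 + u2 v2 = 0`, `H3 = u0 v3 + u3 v0 + u1 v2 + u2 v1 = 0`,
`H2 = 2 (u0 v2 + u2 v0) - 3 u1 v1 - (u3 conj v1 + conj u1 v3) = 0`,
`H1 = u0 v1 + u1 v0 - (u3 conj v2 + conj u2 v3) = 0` and two real equations (`H0` and the last
subspace). The lemma `sos` shows, by an explicit sum of squares, that then `u = 0` or `v = 0`.
-/

open scoped InnerProductSpace ComplexConjugate
open Polynomial

namespace Pool.Agent.Lib_helper24.Seven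

section general
variable {E : Type*} [NormedAddCommGroup E] [InnerProductSpace ℝ E] [FiniteDimensional ℝ E]

lemma proj_orth {k : ℕ} (f : Fin k → E) (N : Fin k → ℝ) (hN : ∀ i, 0 < N i)
    (hf : ∀ i j, ⟪f i, f j⟫_ℝ = if i = j then N i else 0) (x : E) :
    (Submodule.span ℝ (Set.range f)).starProjection x = ∑ i, (⟪f i, x⟫_ℝ / N i) • f i := by
  apply Submodule.eq_starProjection_of_mem_of_inner_eq_zero
  · exact Submodule.sum_mem _ fun i _ => Submodule.smul_mem _ _ (Submodule.subset_span ⟨i, rfl⟩)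
  · intro w hw
    induction hw using Submodule.span_induction with
    | mem w hw =>
      obtain ⟨j, rfl⟩ := hw
      rw [inner_sub_left, sum_inner]
      simp only [inner_smul_left, hf, RCLike.conj_to_real, mul_ite, mul_zero,
        Finset.sum_ite_eq', Finset.mem_univ, if_true]
      rw [div_mul_cancel₀ _ (hN j).ne', real_inner_comm, sub_self]
    | zero => simp
    | add u v _ _ hu hv => rw [inner_add_right, hu, hv, add_zero]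
    | smul c u _ hu => rw [inner_smul_right, hu, mul_zero]

lemma norm_proj_orth {k : ℕ} (f : Fin k → E) (N : Fin k → ℝ) (hN : ∀ i, 0 < N i)
    (hf : ∀ i j, ⟪f i, f j⟫_ℝ = if i = j then N i else 0) (x : E) :
    ‖(Submodule.span ℝ (Set.range f)).starProjection x‖ ^ 2 = ∑ i, ⟪f i, x⟫_ℝ ^ 2 / N i := by
  rw [proj_orth f N hN hf, ← real_inner_self_eq_norm_sq, sum_inner]
  apply Finset.sum_congr rfl
  intro i _
  rw [inner_sum]
  simp only [inner_smul_left, inner_smul_right, hf, RCLike.conj_to_real, mul_ite, mul_zero,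
    Finset.sum_ite_eq, Finset.mem_univ, if_true]
  have := (hN i).ne'
  field_simp

lemma polar_orth {k : ℕ} (f : Fin k → E) (N : Fin k → ℝ) (hN : ∀ i, 0 < N i)
    (hf : ∀ i j, ⟪f i, f j⟫_ℝ = if i = j then N i else 0) (x y : E)
    (h : ‖(Submodule.span ℝ (Set.range f)).starProjection x‖ =
      ‖(Submodule.span ℝ (Set.range f)).starProjection y‖) :
    ∑ i, ⟪f i, x + y⟫_ℝ * ⟪f i, x - y⟫_ℝ / N i = 0 := by
  have h1 := norm_proj_orth f N hN hf x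
  have h2 := norm_proj_orth f N hN hf y
  rw [h, h2] at h1
  rw [← sub_eq_zero.mpr h1.symm, ← Finset.sum_sub_distrib]
  apply Finset.sum_congr rfl
  intro i _
  rw [inner_add_right, inner_sub_right]
  ring

omit [FiniteDimensional ℝ E] in
lemma finrank_orth {k : ℕ} (f : Fin k → E) (N : Fin k → ℝ) (hN : ∀ i, 0 < N i)
    (hf : ∀ i j, ⟪f i, f j⟫_ℝ = if i = j then N i else 0) :
    Module.finrank ℝ (Submodule.span ℝ (Set.range f)) = k := by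
  have hli : LinearIndependent ℝ f := by
    apply linearIndependent_of_ne_zero_of_inner_eq_zero
    · intro i h0
      have := hf i i
      rw [h0, inner_zero_left, if_pos rfl] at this
      exact (hN i).ne this
    · intro i j hij
      rw [hf, if_neg hij]
  rw [finrank_span_eq_card hli, Fintype.card_fin]

end general

/-- a real trigonometric polynomial vanishing on the circle has zero coefficients -/
lemma trig_zero (t : ℝ) (C1 C2 C3 C4 C6 : ℂ)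
    (H : ∀ z : ℂ, z * conj z = 1 →
      t + (C1 * z + C2 * z ^ 2 + C3 * z ^ 3 + C4 * z ^ 4 + C6 * z ^ 6).re = 0) :
    t = 0 ∧ C1 = 0 ∧ C2 = 0 ∧ C3 = 0 ∧ C4 = 0 ∧ C6 = 0 := by
  set p : ℂ[X] := C (conj C6) + C (conj C4) * X ^ 2 + C (conj C3) * X ^ 3 + C (conj C2) * X ^ 4 +
    C (conj C1) * X ^ 5 + C (2 * (t : ℂ)) * X ^ 6 + C C1 * X ^ 7 + C C2 * X ^ 8 + C C3 * X ^ 9 +
    C C4 * X ^ 10 + C C6 * X ^ 12 with hp
  have hroot : ∀ z : ℂ, z * conj z = 1 → p.eval z = 0 := by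
    intro z hz
    have h1 := H z hz
    set w : ℂ := C1 * z + C2 * z ^ 2 + C3 * z ^ 3 + C4 * z ^ 4 + C6 * z ^ 6 with hw
    have h2 : (2 : ℂ) * t + (w + conj w) = 0 := by
      rw [Complex.add_conj]
      have : ((2 * t + 2 * w.re : ℝ) : ℂ) = 0 := by
        have h3 : 2 * t + 2 * w.re = 0 := by linarith
        rw [h3, Complex.ofReal_zero]
      push_cast at this ⊢
      exact this
    have hcw : conj w = conj C1 * conj z + conj C2 * conj z ^ 2 + conj C3 * conj z ^ 3 +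
        conj C4 * conj z ^ 4 + conj C6 * conj z ^ 6 := by
      rw [hw]
      simp only [map_add, map_mul, map_pow]
    have e1 : z ^ 6 * conj z = z ^ 5 := by linear_combination z ^ 5 * hz
    have e2 : z ^ 6 * conj z ^ 2 = z ^ 4 := by
      linear_combination (z ^ 4 * (z * conj z + 1)) * hz
    have e3 : z ^ 6 * conj z ^ 3 = z ^ 3 := by
      linear_combination (z ^ 3 * ((z * conj z) ^ 2 + z * conj z + 1)) * hz
    have e4 : z ^ 6 * conj z ^ 4 = z ^ 2 := by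
      linear_combination (z ^ 2 * ((z * conj z) ^ 3 + (z * conj z) ^ 2 + z * conj z + 1)) * hz
    have e6 : z ^ 6 * conj z ^ 6 = 1 := by
      rw [← mul_pow, hz, one_pow]
    rw [hp]
    simp only [eval_add, eval_mul, eval_C, eval_pow, eval_X]
    rw [hcw] at h2
    linear_combination z ^ 6 * h2 - conj C1 * e1 - conj C2 * e2 - conj C3 * e3 - conj C4 * e4 -
      conj C6 * e6 - z ^ 6 * hw
  have hp0 : p = 0 := by
    apply eq_zero_of_infinite_isRoot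
    apply Pool.Agent.Lib_helper96.PhaseRetrieval.circle_infinite.mono
    intro z hz
    exact hroot z hz
  have hc : ∀ k, p.coeff k = 0 := fun k => by rw [hp0, coeff_zero]
  have h6 := hc 6
  have h7 := hc 7
  have h8 := hc 8
  have h9 := hc 9
  have h10 := hc 10
  have h12 := hc 12
  simp only [hp, coeff_add, coeff_C_mul, coeff_X_pow, coeff_C] at h6 h7 h8 h9 h10 h12
  norm_num at h6 h7 h8 h9 h10 h12
  exact ⟨h6, h7, h8, h9, h10, h12⟩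

lemma sos (a0 a1 a2 a3 a4 a5 a6 b0 b1 b2 b3 b4 b5 b6 : ℝ)
    (h1r : a0*b1 + a1*b0 - a3*b5 - a4*b6 - a5*b3 - a6*b4 = 0)
    (h1i : a0*b2 + a2*b0 - a3*b6 + a4*b5 + a5*b4 - a6*b3 = 0)
    (h2r : 2*a0*b3 - 3*a1*b1 - a1*b5 + 3*a2*b2 - a2*b6 + 2*a3*b0 - a5*b1 - a6*b2 = 0)
    (h2i : 2*a0*b4 - 3*a1*b2 - a1*b6 - 3*a2*b1 + a2*b5 + 2*a4*b0 + a5*b2 - a6*b1 = 0)
    (h3r : a0*b5 + a1*b3 - a2*b4 + a3*b1 - a4*b2 + a5*b0 = 0)
    (h3i : a0*b6 + a1*b4 + a2*b3 + a3*b2 + a4*b1 + a6*b0 = 0)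
    (h4r : a1*b5 - a2*b6 + a3*b3 - a4*b4 + a5*b1 - a6*b2 = 0)
    (h4i : a1*b6 + a2*b5 + a3*b4 + a4*b3 + a5*b2 + a6*b1 = 0)
    (h6r : a5*b5 - a6*b6 = 0)
    (h6i : a5*b6 + a6*b5 = 0)
    (h0 : 6*a0*b0 + 7*a1*b1 + 7*a2*b2 + 5*a3*b3 + 5*a4*b4 + 9*a5*b5 + 9*a6*b6 = 0)
    (hQ : a3*b3 + a4*b4 + a5*b5 + a6*b6 = 0)
    : (a0^2+a1^2+a2^2+a3^2+a4^2+a5^2+a6^2) * (b0^2+b1^2+b2^2+b3^2+b4^2+b5^2+b6^2) = 0 := by
  have key : (1/10) * ((a0^2+a1^2+a2^2+a3^2+a4^2+a5^2+a6^2) * (b0^2+b1^2+b2^2+b3^2+b4^2+b5^2+b6^2)) + ((3599/10)*(a0*b0 + (4320/3599)*a1*b1 + (4320/3599)*a2*b2 + (3240/3599)*a3*b3 + (3240/3599)*a4*b4 + (5420/3599)*a5*b5 + (5420/3599)*a6*b6)^2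
      + (84791/35990)*(a1*b1 + a2*b2 + (615140/84791)*a3*b3 + (615140/84791)*a4*b4 + (914840/84791)*a5*b5 + (914840/84791)*a6*b6)^2
      + (207077009/847910)*(a3*b3 + a4*b4 + (176071200/207077009)*a5*b5 + (176071200/207077009)*a6*b6)^2
      + (3817369201/2070770090)*(a5*b5 + a6*b6)^2
      + (9879/20)*(a0*b1 + a1*b0 - (200/9879)*a1*b3 - (200/9879)*a2*b4 - (200/9879)*a3*b1 - (9680/9879)*a3*b5 - (200/9879)*a4*b2 - (9680/9879)*a4*b6 - (9680/9879)*a5*b3 - (9680/9879)*a6*b4)^2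
      + (9879/20)*(a0*b2 - (200/9879)*a1*b4 + a2*b0 + (200/9879)*a2*b3 + (200/9879)*a3*b2 - (9680/9879)*a3*b6 - (200/9879)*a4*b1 + (9680/9879)*a4*b5 + (9680/9879)*a5*b4 - (9680/9879)*a6*b3)^2
      + (5879/19758)*(a1*b3 + a2*b4 + a3*b1 + (3980/5879)*a3*b5 + a4*b2 + (3980/5879)*a4*b6 + (3980/5879)*a5*b3 + (3980/5879)*a6*b4)^2
      + (5879/19758)*(a1*b4 - a2*b3 - a3*b2 + (3980/5879)*a3*b6 + a4*b1 - (3980/5879)*a4*b5 - (3980/5879)*a5*b4 + (3980/5879)*a6*b3)^2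
      + (56516/5879)*(a3*b5 + a4*b6 + a5*b3 + a6*b4)^2
      + (56516/5879)*(a3*b6 - a4*b5 - a5*b4 + a6*b3)^2
      + (7759/20)*(a0*b3 - (11600/7759)*a1*b1 - (4020/7759)*a1*b5 + (11600/7759)*a2*b2 - (4020/7759)*a2*b6 + a3*b0 - (4020/7759)*a5*b1 - (4020/7759)*a6*b2)^2
      + (7759/20)*(a0*b4 - (11600/7759)*a1*b2 - (4020/7759)*a1*b6 - (11600/7759)*a2*b1 + (4020/7759)*a2*b5 + a4*b0 + (4020/7759)*a5*b2 - (4020/7759)*a6*b1)^2
      + (14571/7759)*(a1*b1 - (1300/4857)*a1*b5 - a2*b2 - (1300/4857)*a2*b6 - (1300/4857)*a5*b1 - (1300/4857)*a6*b2)^2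
      + (14571/7759)*(a1*b2 - (1300/4857)*a1*b6 + a2*b1 + (1300/4857)*a2*b5 + (1300/4857)*a5*b2 - (1300/4857)*a6*b1)^2
      + (731/3238)*(a1*b5 + a2*b6 + a5*b1 + a6*b2)^2
      + (731/3238)*(a1*b6 - a2*b5 - a5*b2 + a6*b1)^2
      + (19979/20)*(a0*b5 + (19700/19979)*a1*b3 - (19700/19979)*a2*b4 + (19700/19979)*a3*b1 - (19700/19979)*a4*b2 + a5*b0)^2
      + (19979/20)*(a0*b6 + (19700/19979)*a1*b4 + (19700/19979)*a2*b3 + (19700/19979)*a3*b2 + (19700/19979)*a4*b1 + a6*b0)^2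
      + (81991/399580)*(a1*b3 - a2*b4 + a3*b1 - a4*b2)^2
      + (81991/399580)*(a1*b4 + a2*b3 + a3*b2 + a4*b1)^2
      + (2449/20)*(a1*b5 - a2*b6 + (2600/2449)*a3*b3 - (2600/2449)*a4*b4 + a5*b1 - a6*b2)^2
      + (2449/20)*(a1*b6 + a2*b5 + (2600/2449)*a3*b4 + (2600/2449)*a4*b3 + a5*b2 + a6*b1)^2
      + (4860/2449)*(a3*b3 - a4*b4)^2
      + (4860/2449)*(a3*b4 + a4*b3)^2
      + (19/20)*(a3*b5 - a4*b6 + a5*b3 - a6*b4)^2
      + (19/20)*(a3*b6 + a4*b5 + a5*b4 + a6*b3)^2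
      + (41)*(a5*b5 - a6*b6)^2
      + (41)*(a5*b6 + a6*b5)^2
      + (309/10)*(-a1*b2 + a2*b1 - (10/103)*a3*b4 + (10/103)*a4*b3 - (110/309)*a5*b6 + (110/309)*a6*b5)^2
      + (9897/1030)*(-a3*b4 + a4*b3 + (21700/9897)*a5*b6 - (21700/9897)*a6*b5)^2
      + (290011/32990)*(-a5*b6 + a6*b5)^2
      + (119/20)*(a0*b1 - a1*b0 - (200/119)*a1*b3 - (200/119)*a2*b4 + (200/119)*a3*b1 - (20/119)*a3*b5 + (200/119)*a4*b2 - (20/119)*a4*b6 + (20/119)*a5*b3 + (20/119)*a6*b4)^2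
      + (119/20)*(a0*b2 - (200/119)*a1*b4 - a2*b0 + (200/119)*a2*b3 - (200/119)*a3*b2 - (20/119)*a3*b6 + (200/119)*a4*b1 + (20/119)*a4*b5 - (20/119)*a5*b4 + (20/119)*a6*b3)^2
      + (1213/119)*(-a1*b3 - a2*b4 + a3*b1 - (990/1213)*a3*b5 + a4*b2 - (990/1213)*a4*b6 + (990/1213)*a5*b3 + (990/1213)*a6*b4)^2
      + (1213/119)*(-a1*b4 + a2*b3 - a3*b2 - (990/1213)*a3*b6 + a4*b1 + (990/1213)*a4*b5 - (990/1213)*a5*b4 + (990/1213)*a6*b3)^2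
      + (2477/1213)*(-a3*b5 - a4*b6 + a5*b3 + a6*b4)^2
      + (2477/1213)*(-a3*b6 + a4*b5 - a5*b4 + a6*b3)^2
      + (239/20)*(a0*b3 + (320/239)*a1*b5 + (320/239)*a2*b6 - a3*b0 - (320/239)*a5*b1 - (320/239)*a6*b2)^2
      + (239/20)*(a0*b4 + (320/239)*a1*b6 - (320/239)*a2*b5 - a4*b0 + (320/239)*a5*b2 - (320/239)*a6*b1)^2
      + (138/239)*(-a1*b5 - a2*b6 + a5*b1 + a6*b2)^2
      + (138/239)*(-a1*b6 + a2*b5 - a5*b2 + a6*b1)^2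
      + (19/20)*(a0*b5 - a5*b0)^2
      + (19/20)*(a0*b6 - a6*b0)^2
      + (19/20)*(a1*b3 - a2*b4 - a3*b1 + a4*b2)^2
      + (19/20)*(a1*b4 + a2*b3 - a3*b2 - a4*b1)^2
      + (19/20)*(a1*b5 - a2*b6 - a5*b1 + a6*b2)^2
      + (19/20)*(a1*b6 + a2*b5 - a5*b2 - a6*b1)^2
      + (119/20)*(a3*b5 - a4*b6 - a5*b3 + a6*b4)^2
      + (119/20)*(a3*b6 + a4*b5 - a5*b4 - a6*b3)^2) = 0 := by
    linear_combination 500*(a0*b1 + a1*b0 - a3*b5 - a4*b6 - a5*b3 - a6*b4)*h1r + 500*(a0*b2 + a2*b0 - a3*b6 + a4*b5 + a5*b4 - a6*b3)*h1i + 100*(2*a0*b3 - 3*a1*b1 - a1*b5 + 3*a2*b2 - a2*b6 + 2*a3*b0 - a5*b1 - a6*b2)*h2r + 100*(2*a0*b4 - 3*a1*b2 - a1*b6 - 3*a2*b1 + a2*b5 + 2*a4*b0 + a5*b2 - a6*b1)*h2i + 1000*(a0*b5 + a1*b3 - a2*b4 + a3*b1 - a4*b2 + a5*b0)*h3r + 1000*(a0*b6 + a1*b4 + a2*b3 + a3*b2 + a4*b1 + a6*b0)*h3i + 150*(a1*b5 - a2*b6 + a3*b3 - a4*b4 + a5*b1 - a6*b2)*h4r +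 150*(a1*b6 + a2*b5 + a3*b4 + a4*b3 + a5*b2 + a6*b1)*h4i + 100*(a5*b5 - a6*b6)*h6r + 100*(a5*b6 + a6*b5)*h6i + 10*(6*a0*b0 + 7*a1*b1 + 7*a2*b2 + 5*a3*b3 + 5*a4*b4 + 9*a5*b5 + 9*a6*b6)*h0 + 400*(a3*b3 + a4*b4 + a5*b5 + a6*b6)*hQ
  have hpos : 0 ≤ ((3599/10)*(a0*b0 + (4320/3599)*a1*b1 + (4320/3599)*a2*b2 + (3240/3599)*a3*b3 + (3240/3599)*a4*b4 + (5420/3599)*a5*b5 + (5420/3599)*a6*b6)^2
      + (84791/35990)*(a1*b1 + a2*b2 + (615140/84791)*a3*b3 + (615140/84791)*a4*b4 + (914840/84791)*a5*b5 + (914840/84791)*a6*b6)^2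
      + (207077009/847910)*(a3*b3 + a4*b4 + (176071200/207077009)*a5*b5 + (176071200/207077009)*a6*b6)^2
      + (3817369201/2070770090)*(a5*b5 + a6*b6)^2
      + (9879/20)*(a0*b1 + a1*b0 - (200/9879)*a1*b3 - (200/9879)*a2*b4 - (200/9879)*a3*b1 - (9680/9879)*a3*b5 - (200/9879)*a4*b2 - (9680/9879)*a4*b6 - (9680/9879)*a5*b3 - (9680/9879)*a6*b4)^2
      + (9879/20)*(a0*b2 - (200/9879)*a1*b4 + a2*b0 + (200/9879)*a2*b3 + (200/9879)*a3*b2 - (9680/9879)*a3*b6 - (200/9879)*a4*b1 + (9680/9879)*a4*b5 + (9680/9879)*a5*b4 - (9680/9879)*a6*b3)^2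
      + (5879/19758)*(a1*b3 + a2*b4 + a3*b1 + (3980/5879)*a3*b5 + a4*b2 + (3980/5879)*a4*b6 + (3980/5879)*a5*b3 + (3980/5879)*a6*b4)^2
      + (5879/19758)*(a1*b4 - a2*b3 - a3*b2 + (3980/5879)*a3*b6 + a4*b1 - (3980/5879)*a4*b5 - (3980/5879)*a5*b4 + (3980/5879)*a6*b3)^2
      + (56516/5879)*(a3*b5 + a4*b6 + a5*b3 + a6*b4)^2
      + (56516/5879)*(a3*b6 - a4*b5 - a5*b4 + a6*b3)^2
      + (7759/20)*(a0*b3 - (11600/7759)*a1*b1 - (4020/7759)*a1*b5 + (11600/7759)*a2*b2 - (4020/7759)*a2*b6 + a3*b0 - (4020/7759)*a5*b1 - (4020/7759)*a6*b2)^2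
      + (7759/20)*(a0*b4 - (11600/7759)*a1*b2 - (4020/7759)*a1*b6 - (11600/7759)*a2*b1 + (4020/7759)*a2*b5 + a4*b0 + (4020/7759)*a5*b2 - (4020/7759)*a6*b1)^2
      + (14571/7759)*(a1*b1 - (1300/4857)*a1*b5 - a2*b2 - (1300/4857)*a2*b6 - (1300/4857)*a5*b1 - (1300/4857)*a6*b2)^2
      + (14571/7759)*(a1*b2 - (1300/4857)*a1*b6 + a2*b1 + (1300/4857)*a2*b5 + (1300/4857)*a5*b2 - (1300/4857)*a6*b1)^2
      + (731/3238)*(a1*b5 + a2*b6 + a5*b1 + a6*b2)^2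
      + (731/3238)*(a1*b6 - a2*b5 - a5*b2 + a6*b1)^2
      + (19979/20)*(a0*b5 + (19700/19979)*a1*b3 - (19700/19979)*a2*b4 + (19700/19979)*a3*b1 - (19700/19979)*a4*b2 + a5*b0)^2
      + (19979/20)*(a0*b6 + (19700/19979)*a1*b4 + (19700/19979)*a2*b3 + (19700/19979)*a3*b2 + (19700/19979)*a4*b1 + a6*b0)^2
      + (81991/399580)*(a1*b3 - a2*b4 + a3*b1 - a4*b2)^2
      + (81991/399580)*(a1*b4 + a2*b3 + a3*b2 + a4*b1)^2
      + (2449/20)*(a1*b5 - a2*b6 + (2600/2449)*a3*b3 - (2600/2449)*a4*b4 + a5*b1 - a6*b2)^2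
      + (2449/20)*(a1*b6 + a2*b5 + (2600/2449)*a3*b4 + (2600/2449)*a4*b3 + a5*b2 + a6*b1)^2
      + (4860/2449)*(a3*b3 - a4*b4)^2
      + (4860/2449)*(a3*b4 + a4*b3)^2
      + (19/20)*(a3*b5 - a4*b6 + a5*b3 - a6*b4)^2
      + (19/20)*(a3*b6 + a4*b5 + a5*b4 + a6*b3)^2
      + (41)*(a5*b5 - a6*b6)^2
      + (41)*(a5*b6 + a6*b5)^2
      + (309/10)*(-a1*b2 + a2*b1 - (10/103)*a3*b4 + (10/103)*a4*b3 - (110/309)*a5*b6 + (110/309)*a6*b5)^2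
      + (9897/1030)*(-a3*b4 + a4*b3 + (21700/9897)*a5*b6 - (21700/9897)*a6*b5)^2
      + (290011/32990)*(-a5*b6 + a6*b5)^2
      + (119/20)*(a0*b1 - a1*b0 - (200/119)*a1*b3 - (200/119)*a2*b4 + (200/119)*a3*b1 - (20/119)*a3*b5 + (200/119)*a4*b2 - (20/119)*a4*b6 + (20/119)*a5*b3 + (20/119)*a6*b4)^2
      + (119/20)*(a0*b2 - (200/119)*a1*b4 - a2*b0 + (200/119)*a2*b3 - (200/119)*a3*b2 - (20/119)*a3*b6 + (200/119)*a4*b1 + (20/119)*a4*b5 - (20/119)*a5*b4 + (20/119)*a6*b3)^2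
      + (1213/119)*(-a1*b3 - a2*b4 + a3*b1 - (990/1213)*a3*b5 + a4*b2 - (990/1213)*a4*b6 + (990/1213)*a5*b3 + (990/1213)*a6*b4)^2
      + (1213/119)*(-a1*b4 + a2*b3 - a3*b2 - (990/1213)*a3*b6 + a4*b1 + (990/1213)*a4*b5 - (990/1213)*a5*b4 + (990/1213)*a6*b3)^2
      + (2477/1213)*(-a3*b5 - a4*b6 + a5*b3 + a6*b4)^2
      + (2477/1213)*(-a3*b6 + a4*b5 - a5*b4 + a6*b3)^2
      + (239/20)*(a0*b3 + (320/239)*a1*b5 + (320/239)*a2*b6 - a3*b0 - (320/239)*a5*b1 - (320/239)*a6*b2)^2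
      + (239/20)*(a0*b4 + (320/239)*a1*b6 - (320/239)*a2*b5 - a4*b0 + (320/239)*a5*b2 - (320/239)*a6*b1)^2
      + (138/239)*(-a1*b5 - a2*b6 + a5*b1 + a6*b2)^2
      + (138/239)*(-a1*b6 + a2*b5 - a5*b2 + a6*b1)^2
      + (19/20)*(a0*b5 - a5*b0)^2
      + (19/20)*(a0*b6 - a6*b0)^2
      + (19/20)*(a1*b3 - a2*b4 - a3*b1 + a4*b2)^2
      + (19/20)*(a1*b4 + a2*b3 - a3*b2 - a4*b1)^2
      + (19/20)*(a1*b5 - a2*b6 - a5*b1 + a6*b2)^2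
      + (19/20)*(a1*b6 + a2*b5 - a5*b2 - a6*b1)^2
      + (119/20)*(a3*b5 - a4*b6 - a5*b3 + a6*b4)^2
      + (119/20)*(a3*b6 + a4*b5 - a5*b4 - a6*b3)^2) := by positivity
  have hab : 0 ≤ (a0^2+a1^2+a2^2+a3^2+a4^2+a5^2+a6^2) * (b0^2+b1^2+b2^2+b3^2+b4^2+b5^2+b6^2) := by positivity
  linarith

/-- the four vectors spanning the subspace with parameter `z` (where `p k + i q k = z ^ k`) -/
noncomputable def fv (p1 q1 p2 q2 p3 q3 : ℝ) : Fin 4 → EuclideanSpace ℝ (Fin 7) :=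
  ![!₂[0, p1, -q1, 2 * p2, -2 * q2, -2 * p3, 2 * q3],
    !₂[3, 2 * p1, -2 * q1, p2, -q2, 2 * p3, -2 * q3],
    !₂[0, q1, p1, 0, 0, -q3, -p3],
    !₂[0, q1, p1, -q2, -p2, q3, p3]]

/-- their squared norms -/
def nv : Fin 4 → ℝ := ![9, 18, 2, 3]

lemma nv_pos (i : Fin 4) : 0 < nv i := by
  fin_cases i <;> simp [nv]

lemma fv_orth (p1 q1 p2 q2 p3 q3 : ℝ) (h1 : p1 ^ 2 + q1 ^ 2 = 1) (h2 : p2 ^ 2 + q2 ^ 2 = 1)
    (h3 : p3 ^ 2 + q3 ^ 2 = 1) (i j : Fin 4) :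
    ⟪fv p1 q1 p2 q2 p3 q3 i, fv p1 q1 p2 q2 p3 q3 j⟫_ℝ = if i = j then nv i else 0 := by
  rw [PiLp.inner_apply]
  fin_cases i <;> fin_cases j <;>
    simp [fv, nv, Fin.sum_univ_succ, Fin.succ] <;> linarith


/-- the harmonic forms -/
def H1 (a b : EuclideanSpace ℝ (Fin 7)) : ℂ :=
  ⟨a 0*b 1 + a 1*b 0 - a 3*b 5 - a 4*b 6 - a 5*b 3 - a 6*b 4,
    a 0*b 2 + a 2*b 0 - a 3*b 6 + a 4*b 5 + a 5*b 4 - a 6*b 3⟩

def H2 (a b : EuclideanSpace ℝ (Fin 7)) : ℂ :=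
  ⟨2*a 0*b 3 - 3*a 1*b 1 - a 1*b 5 + 3*a 2*b 2 - a 2*b 6 + 2*a 3*b 0 - a 5*b 1 - a 6*b 2,
    2*a 0*b 4 - 3*a 1*b 2 - a 1*b 6 - 3*a 2*b 1 + a 2*b 5 + 2*a 4*b 0 + a 5*b 2 - a 6*b 1⟩

def H3 (a b : EuclideanSpace ℝ (Fin 7)) : ℂ :=
  ⟨a 0*b 5 + a 1*b 3 - a 2*b 4 + a 3*b 1 - a 4*b 2 + a 5*b 0,
    a 0*b 6 + a 1*b 4 + a 2*b 3 + a 3*b 2 + a 4*b 1 + a 6*b 0⟩

def H4 (a b : EuclideanSpace ℝ (Fin 7)) : ℂ :=
  ⟨a 1*b 5 - a 2*b 6 + a 3*b 3 - a 4*b 4 + a 5*b 1 - a 6*b 2,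
    a 1*b 6 + a 2*b 5 + a 3*b 4 + a 4*b 3 + a 5*b 2 + a 6*b 1⟩

def H6 (a b : EuclideanSpace ℝ (Fin 7)) : ℂ :=
  ⟨a 5*b 5 - a 6*b 6,
    a 5*b 6 + a 6*b 5⟩

def H0 (a b : EuclideanSpace ℝ (Fin 7)) : ℝ :=
  6*a 0*b 0 + 7*a 1*b 1 + 7*a 2*b 2 + 5*a 3*b 3 + 5*a 4*b 4 + 9*a 5*b 5 + 9*a 6*b 6

lemma expand (p1 q1 p2 q2 p3 q3 : ℝ) (h1 : p1 ^ 2 + q1 ^ 2 = 1) (h2 : p2 ^ 2 + q2 ^ 2 = 1)
    (h3 : p3 ^ 2 + q3 ^ 2 = 1) (hA1 : p1 ^ 2 - q1 ^ 2 = p2) (hA2 : 2 * p1 * q1 = q2)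
    (hB1 : p1 * p2 - q1 * q2 = p3) (hB2 : p1 * q2 + q1 * p2 = q3)
    (hC1 : p3 * p2 + q3 * q2 = p1) (hC2 : q3 * p2 - p3 * q2 = q1)
    (hD1 : p3 * p1 + q3 * q1 = p2) (hD2 : q3 * p1 - p3 * q1 = q2)
    (hE1 : p1 * p3 - q1 * q3 = p2 ^ 2 - q2 ^ 2) (hE2 : p1 * q3 + q1 * p3 = 2 * p2 * q2)
    (a b : EuclideanSpace ℝ (Fin 7)) :
    12 * ∑ i, ⟪fv p1 q1 p2 q2 p3 q3 i, a⟫_ℝ * ⟪fv p1 q1 p2 q2 p3 q3 i, b⟫_ℝ / nv i =
      H0 a b + 4 * ((H1 a b).re * p1 - (H1 a b).im * q1) +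
        ((H2 a b).re * p2 - (H2 a b).im * q2) + 4 * ((H3 a b).re * p3 - (H3 a b).im * q3) +
        ((H4 a b).re * (p2 ^ 2 - q2 ^ 2) - (H4 a b).im * (2 * p2 * q2)) -
        ((H6 a b).re * (p3 ^ 2 - q3 ^ 2) - (H6 a b).im * (2 * p3 * q3)) := by
  simp only [PiLp.inner_apply, H0, H1, H2, H3, H4, H6]
  simp [fv, nv, Fin.sum_univ_succ, Fin.succ]
  linear_combination (4 * (-a 3*b 5 - a 4*b 6 - a 5*b 3 - a 6*b 4)) * hC1 - (4 * (-a 3*b 6 + a 4*b 5 + a 5*b 4 - a 6*b 3)) * hC2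
    + (-3*a 1*b 1 + 3*a 2*b 2) * hA1 - (-3*a 1*b 2 - 3*a 2*b 1) * hA2
    + (-a 1*b 5 - a 2*b 6 - a 5*b 1 - a 6*b 2) * hD1 - (-a 1*b 6 + a 2*b 5 + a 5*b 2 - a 6*b 1) * hD2
    + (4 * (a 1*b 3 - a 2*b 4 + a 3*b 1 - a 4*b 2)) * hB1 - (4 * (a 1*b 4 + a 2*b 3 + a 3*b 2 + a 4*b 1)) * hB2
    + (a 1*b 5 - a 2*b 6 + a 5*b 1 - a 6*b 2) * hE1 - (a 1*b 6 + a 2*b 5 + a 5*b 2 + a 6*b 1) * hE2
    + 7 * (a 1*b 1 + a 2*b 2) * h1 + 5 * (a 3*b 3 + a 4*b 4) * h2 + 9 * (a 5*b 5 + a 6*b 6) * h3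

/-- unit complex numbers -/
abbrev Circ := {z : ℂ // z * conj z = 1}

/-- the powers of `z` occurring in the forms, as a vector of a real space of dimension `11` -/
noncomputable def sy (z : Circ) : ℝ × (Fin 5 → ℂ) :=
  (1, ![z.1, z.1 ^ 2, z.1 ^ 3, z.1 ^ 4, z.1 ^ 6])

lemma finrank_V : Module.finrank ℝ (ℝ × (Fin 5 → ℂ)) = 11 := by
  rw [Module.finrank_prod, finrank_real_of_complex]
  simp

lemma exists_sel : ∃ g : Fin 11 → Circ,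
    ∀ z : Circ, sy z ∈ Submodule.span ℝ (Set.range (fun n => sy (g n))) := by
  obtain ⟨f, hf, hspan, -⟩ :=
    Submodule.exists_fun_fin_finrank_span_eq ℝ (Set.range sy)
  have hrle : Module.finrank ℝ (Submodule.span ℝ (Set.range sy)) ≤ 11 := by
    rw [← finrank_V]
    exact Submodule.finrank_le _
  choose p hp using hf
  refine ⟨fun n => if h : (n : ℕ) < Module.finrank ℝ (Submodule.span ℝ (Set.range sy))
    then p ⟨n, h⟩ else ⟨1, by simp⟩, fun q => ?_⟩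
  have h1 : sy q ∈ Submodule.span ℝ (Set.range f) := by
    rw [hspan]; exact Submodule.subset_span ⟨q, rfl⟩
  refine Submodule.span_mono ?_ h1
  rintro _ ⟨i, rfl⟩
  refine ⟨⟨i, lt_of_lt_of_le i.isLt hrle⟩, ?_⟩
  simp only
  rw [dif_pos i.isLt]
  exact hp i

/-- linear functional -/
noncomputable def Phi (t : ℝ) (c : Fin 5 → ℂ) : (ℝ × (Fin 5 → ℂ)) →ₗ[ℝ] ℝ where
  toFun x := t * x.1 + (∑ i, c i * x.2 i).re
  map_add' x y := by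
    simp only [Prod.fst_add, Prod.snd_add, Pi.add_apply, mul_add, Finset.sum_add_distrib,
      Complex.add_re]
    ring
  map_smul' s x := by
    have h1 : ∀ i, c i * (s • x).2 i = (s : ℂ) * (c i * x.2 i) := by
      intro i
      simp only [Prod.smul_snd, Pi.smul_apply, Complex.real_smul]
      ring
    simp only [h1, ← Finset.mul_sum, Complex.re_ofReal_mul, Prod.smul_fst, smul_eq_mul,
      RingHom.id_apply]
    ring

lemma Phi_apply (t : ℝ) (c1 c2 c3 c4 c5 w1 w2 w3 w4 w5 : ℂ) :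
    Phi t ![c1, c2, c3, c4, c5] (1, ![w1, w2, w3, w4, w5]) =
      t + (c1 * w1 + c2 * w2 + c3 * w3 + c4 * w4 + c5 * w5).re := by
  simp [Phi, Fin.sum_univ_five]

/-- the subspace with parameter `z` -/
noncomputable def WW (z : ℂ) : Submodule ℝ (EuclideanSpace ℝ (Fin 7)) :=
  Submodule.span ℝ (Set.range (fv z.re z.im (z ^ 2).re (z ^ 2).im (z ^ 3).re (z ^ 3).im))

lemma unit_sq (z : ℂ) (hz : z * conj z = 1) : z.re ^ 2 + z.im ^ 2 = 1 := by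
  have := congrArg Complex.re hz
  simp at this
  linarith

lemma unit_pow (z : ℂ) (hz : z * conj z = 1) (k : ℕ) : (z ^ k).re ^ 2 + (z ^ k).im ^ 2 = 1 := by
  apply unit_sq
  rw [map_pow, ← mul_pow, hz, one_pow]

lemma key_expand (z : ℂ) (hz : z * conj z = 1) (a b : EuclideanSpace ℝ (Fin 7)) :
    12 * ∑ i, ⟪fv z.re z.im (z ^ 2).re (z ^ 2).im (z ^ 3).re (z ^ 3).im i, a⟫_ℝ *
      ⟪fv z.re z.im (z ^ 2).re (z ^ 2).im (z ^ 3).re (z ^ 3).im i, b⟫_ℝ / nv i =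
      Phi (H0 a b) ![4 * H1 a b, H2 a b, 4 * H3 a b, H4 a b, - H6 a b] (sy ⟨z, hz⟩) := by
  have h1 := unit_sq z hz
  have h2 := unit_pow z hz 2
  have h3 := unit_pow z hz 3
  have e2r : (z ^ 2).re = z.re ^ 2 - z.im ^ 2 := by
    simp [pow_succ, Complex.mul_re]
  have e2i : (z ^ 2).im = 2 * z.re * z.im := by
    simp [pow_succ, Complex.mul_im]; ring
  have e3r : (z ^ 3).re = z.re * (z ^ 2).re - z.im * (z ^ 2).im := by
    rw [pow_succ', Complex.mul_re]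
  have e3i : (z ^ 3).im = z.re * (z ^ 2).im + z.im * (z ^ 2).re := by
    rw [pow_succ', Complex.mul_im]
  have e4r : (z ^ 4).re = (z ^ 2).re ^ 2 - (z ^ 2).im ^ 2 := by
    have : z ^ 4 = z ^ 2 * z ^ 2 := by ring
    rw [this, Complex.mul_re]; ring
  have e4i : (z ^ 4).im = 2 * (z ^ 2).re * (z ^ 2).im := by
    have : z ^ 4 = z ^ 2 * z ^ 2 := by ring
    rw [this, Complex.mul_im]; ring
  have e6r : (z ^ 6).re = (z ^ 3).re ^ 2 - (z ^ 3).im ^ 2 := by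
    have : z ^ 6 = z ^ 3 * z ^ 3 := by ring
    rw [this, Complex.mul_re]; ring
  have e6i : (z ^ 6).im = 2 * (z ^ 3).re * (z ^ 3).im := by
    have : z ^ 6 = z ^ 3 * z ^ 3 := by ring
    rw [this, Complex.mul_im]; ring
  rw [expand z.re z.im (z ^ 2).re (z ^ 2).im (z ^ 3).re (z ^ 3).im h1 h2 h3 e2r.symm e2i.symm
    e3r.symm e3i.symm
    (by rw [e3r, e3i]; linear_combination z.re * h2)
    (by rw [e3r, e3i]; linear_combination z.im * h2)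
    (by rw [e3r, e3i]; linear_combination (z ^ 2).re * h1)
    (by rw [e3r, e3i]; linear_combination (z ^ 2).im * h1)
    (by rw [e3r, e3i, e2r, e2i]; ring)
    (by rw [e3r, e3i, e2r, e2i]; ring)]
  rw [sy, Phi_apply]
  simp only [Complex.add_re, Complex.mul_re, Complex.mul_im, Complex.neg_re, Complex.neg_im,
    Complex.re_ofNat, Complex.im_ofNat, e4r, e4i, e6r, e6i]
  ring

lemma sum_sq_zero (a : EuclideanSpace ℝ (Fin 7))
    (h : a 0 ^ 2 + a 1 ^ 2 + a 2 ^ 2 + a 3 ^ 2 + a 4 ^ 2 + a 5 ^ 2 + a 6 ^ 2 = 0) : a = 0 := by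
  have h1 : ‖a‖ ^ 2 = 0 := by
    rw [EuclideanSpace.norm_sq_eq]
    simp only [Fin.sum_univ_seven, Real.norm_eq_abs, sq_abs]
    exact h
  exact norm_eq_zero.mp (pow_eq_zero_iff two_ne_zero |>.mp h1)

/-- the last subspace: the last four coordinates -/
noncomputable def fl : Fin 4 → EuclideanSpace ℝ (Fin 7) :=
  ![!₂[0, 0, 0, 1, 0, 0, 0], !₂[0, 0, 0, 0, 1, 0, 0], !₂[0, 0, 0, 0, 0, 1, 0],
    !₂[0, 0, 0, 0, 0, 0, 1]]

lemma fl_orth (i j : Fin 4) : ⟪fl i, fl j⟫_ℝ = if i = j then (1 : ℝ) else 0 := by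
  rw [PiLp.inner_apply]
  fin_cases i <;> fin_cases j <;>
    simp [fl, Fin.sum_univ_succ, Fin.succ]

lemma fl_sum (a b : EuclideanSpace ℝ (Fin 7)) :
    ∑ i, ⟪fl i, a⟫_ℝ * ⟪fl i, b⟫_ℝ / (1 : ℝ) = a 3 * b 3 + a 4 * b 4 + a 5 * b 5 + a 6 * b 6 := by
  simp only [PiLp.inner_apply]
  simp [fl, Fin.sum_univ_succ, Fin.succ]
  ring

theorem exists_family7 : ∃ W : Fin 12 → Submodule ℝ (EuclideanSpace ℝ (Fin 7)),
    (∀ n, Module.finrank ℝ (W n) = 4) ∧ ∀ x y : EuclideanSpace ℝ (Fin 7),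
      (∀ n, ‖(W n).starProjection x‖ = ‖(W n).starProjection y‖) → x = y ∨ x = -y := by
  obtain ⟨g, hg⟩ := exists_sel
  have hfo : ∀ z : Circ, ∀ i j : Fin 4,
      ⟪fv z.1.re z.1.im (z.1 ^ 2).re (z.1 ^ 2).im (z.1 ^ 3).re (z.1 ^ 3).im i,
        fv z.1.re z.1.im (z.1 ^ 2).re (z.1 ^ 2).im (z.1 ^ 3).re (z.1 ^ 3).im j⟫_ℝ =
        if i = j then nv i else 0 := fun z i j =>
    fv_orth _ _ _ _ _ _ (unit_sq z.1 z.2) (unit_pow z.1 z.2 2) (unit_pow z.1 z.2 3) i j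
  refine ⟨fun n => if h : (n : ℕ) < 11 then WW (g ⟨n, h⟩).1 else
    Submodule.span ℝ (Set.range fl), fun n => ?_, fun x y h => ?_⟩
  · beta_reduce
    by_cases hn : (n : ℕ) < 11
    · rw [show (if h : (n : ℕ) < 11 then WW (g ⟨n, h⟩).1 else
        Submodule.span ℝ (Set.range fl)) = WW (g ⟨n, hn⟩).1 from dif_pos hn]
      exact finrank_orth _ nv nv_pos (hfo (g ⟨n, hn⟩))
    · rw [show (if h : (n : ℕ) < 11 then WW (g ⟨n, h⟩).1 else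
        Submodule.span ℝ (Set.range fl)) = Submodule.span ℝ (Set.range fl) from dif_neg hn]
      exact finrank_orth fl (fun _ => 1) (fun _ => one_pos) fl_orth
  · set a := x + y with ha
    set b := x - y with hb
    -- conditions from the first eleven subspaces
    have key : ∀ n : Fin 11, Phi (H0 a b) ![4 * H1 a b, H2 a b, 4 * H3 a b, H4 a b, - H6 a b]
        (sy (g n)) = 0 := by
      intro n
      have h1 := h ⟨n, by omega⟩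
      simp only [n.isLt, dif_pos, Fin.eta] at h1
      have h2 := polar_orth _ nv nv_pos (hfo (g n)) x y h1
      have h3 := key_expand (g n).1 (g n).2 a b
      rw [← ha, ← hb] at h2
      rw [h2, mul_zero] at h3
      exact h3.symm
    have hlast : a 3 * b 3 + a 4 * b 4 + a 5 * b 5 + a 6 * b 6 = 0 := by
      have h1 := h ⟨11, by norm_num⟩
      simp only [lt_irrefl, dif_neg, not_false_eq_true] at h1
      have h2 := polar_orth fl (fun _ => 1) (fun _ => one_pos) fl_orth x y h1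
      rw [← ha, ← hb, fl_sum] at h2
      exact h2
    have hker : Submodule.span ℝ (Set.range (fun n => sy (g n))) ≤
        LinearMap.ker (Phi (H0 a b) ![4 * H1 a b, H2 a b, 4 * H3 a b, H4 a b, - H6 a b]) := by
      rw [Submodule.span_le]
      rintro _ ⟨n, rfl⟩
      exact key n
    have hall : ∀ z : ℂ, z * conj z = 1 → H0 a b + ((4 * H1 a b) * z + H2 a b * z ^ 2 +
        (4 * H3 a b) * z ^ 3 + H4 a b * z ^ 4 + (- H6 a b) * z ^ 6).re = 0 := by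
      intro z hz
      have h1 := hker (hg ⟨z, hz⟩)
      rw [LinearMap.mem_ker, sy, Phi_apply] at h1
      exact h1
    obtain ⟨e0, e1, e2, e3, e4, e6⟩ := trig_zero _ _ _ _ _ _ hall
    have e1' : H1 a b = 0 := by simpa using e1
    have e3' : H3 a b = 0 := by simpa using e3
    have e6' : H6 a b = 0 := by simpa using e6
    have r : ∀ w : ℂ, w = 0 → w.re = 0 := fun w hw => by rw [hw, Complex.zero_re]
    have i : ∀ w : ℂ, w = 0 → w.im = 0 := fun w hw => by rw [hw, Complex.zero_im]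
    have hprod := sos (a 0) (a 1) (a 2) (a 3) (a 4) (a 5) (a 6)
      (b 0) (b 1) (b 2) (b 3) (b 4) (b 5) (b 6) (r _ e1') (i _ e1') (r _ e2) (i _ e2)
      (r _ e3') (i _ e3') (r _ e4) (i _ e4) (r _ e6') (i _ e6') e0 hlast
    rcases mul_eq_zero.mp hprod with h5 | h5
    · right
      exact eq_neg_of_add_eq_zero_left (ha ▸ sum_sq_zero a h5)
    · left
      exact sub_eq_zero.mp (hb ▸ sum_sq_zero b h5)

end Pool.Agent.Lib_helper24.Seven
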